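import Pool.Agent.U527.Crv.L2
import Pool.Agent.H810R3.Tub.Final
import Pool.Agent.H810R3.Tub.Lp

set_option autoImplicit false

/-! Packing bounds, and the bounds for the averages over blocks. -/

open MeasureTheory Set ENNReal Real Metric

namespace Pool.Agent.U527.Crv

open Pool.Agent.H810R3.Tub

variable {d : ℕ}

/-- Packing. -/
theorem packing (hd : 1 ≤ d) {α : Type*} (S : Finset α) (x : α → Vec d) (c : Vec d) {R ε : ℝ}
    (hε : 0 < ε) (hR : 0 < R) (hsep : ∀ i ∈ S, ∀ j ∈ S, i ≠ j → ε ≤ ‖x i - x j‖)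
    (hin : ∀ i ∈ S, ‖x i - c‖ ≤ R) : (S.card : ℝ) ≤ (1 + 2 * R / ε) ^ d := by
  have hom := om_pos (d := d)
  have hdis : (S : Set α).PairwiseDisjoint (fun i => ball (x i) (ε / 2)) := by
    intro i hi j hj hij
    apply ball_disjoint_ball
    rw [dist_eq_norm]
    have := hsep i hi j hj hij
    linarith
  have h1 : ∑ i ∈ S, volume (ball (x i) (ε / 2)) ≤ volume (ball c (R + ε / 2)) := by
    rw [← measure_biUnion_finset hdis (fun i _ => measurableSet_ball)]
    apply measure_mono
    intro y hy
    simp only [mem_iUnion] at hy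
    obtain ⟨i, hi, hy⟩ := hy
    rw [mem_ball, dist_eq_norm] at hy ⊢
    calc ‖y - c‖ = ‖(y - x i) + (x i - c)‖ := by congr 1; abel
      _ ≤ ‖y - x i‖ + ‖x i - c‖ := norm_add_le _ _
      _ < ε / 2 + R := by linarith [hin i hi]
      _ = _ := by ring
  have h2 : ∀ y : Vec d, ∀ r : ℝ, 0 < r → volume (ball y r) = ENNReal.ofReal (r ^ d * om d) := by
    intro y r hr
    rw [Measure.addHaar_ball_center]
    exact vol_ball hd hr
  simp only [h2 _ _ (half_pos hε)] at h1
  rw [h2 c _ (by positivity), Finset.sum_const, nsmul_eq_mul, ← ENNReal.ofReal_natCast,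
    ← ENNReal.ofReal_mul (Nat.cast_nonneg _), ENNReal.ofReal_le_ofReal_iff (by positivity)] at h1
  have h3 : (S.card : ℝ) * (ε / 2) ^ d ≤ (R + ε / 2) ^ d := by
    have : (S.card : ℝ) * (ε / 2) ^ d * om d ≤ (R + ε / 2) ^ d * om d := by linarith
    exact le_of_mul_le_mul_right this hom
  have h4 : (R + ε / 2) ^ d = (1 + 2 * R / ε) ^ d * (ε / 2) ^ d := by
    rw [← mul_pow]
    congr 1
    field_simp
    ring
  rw [h4] at h3
  exact le_of_mul_le_mul_right h3 (by positivity)

/-- The overlap of the balls around the slopes. -/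
theorem overlap (hd : 1 ≤ d) {ι : Type*} [Fintype ι] (v : ι → Vec d) {R δ : ℝ} (hδ : 0 < δ)
    (hR : 0 < R) (hsep : ∀ i j, i ≠ j → δ ≤ ‖v i - v j‖) :
    ∫⁻ w, (∑ t, ENNReal.ofReal (chi R (w - v t))) ^ 2 ≤
      ENNReal.ofReal ((1 + 2 * R / δ) ^ d * (Fintype.card ι * (R ^ d * om d))) := by
  classical
  have hm : ∀ t, Measurable fun w : Vec d => ENNReal.ofReal (chi R (w - v t)) := fun t =>
    ((chi_meas R).comp (by fun_prop)).ennreal_ofReal
  have h1 : ∀ w, ∑ t, ENNReal.ofReal (chi R (w - v t)) ≤ ENNReal.ofReal ((1 + 2 * R / δ) ^ d) := by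
    intro w
    have h2 : ∀ t, ENNReal.ofReal (chi R (w - v t)) = if ‖w - v t‖ < R then 1 else 0 := by
      intro t
      split_ifs with h
      · rw [chi_one h, ENNReal.ofReal_one]
      · rw [chi_zero (not_lt.1 h), ENNReal.ofReal_zero]
    simp only [h2]
    rw [← Finset.sum_filter, Finset.sum_const, nsmul_eq_mul, mul_one, ← ENNReal.ofReal_natCast]
    apply ENNReal.ofReal_le_ofReal
    apply packing hd _ v w hδ hR
    · intro i _ j _ hij
      exact hsep i j hij
    · intro i hi
      rw [Finset.mem_filter] at hi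
      rw [norm_sub_rev]
      exact hi.2.le
  have h3 : ∀ t, ∫⁻ w : Vec d, ENNReal.ofReal (chi R (w - v t)) = ENNReal.ofReal (R ^ d * om d) := by
    intro t
    have h4 := lintegral_sub_right_eq_self (μ := (volume : Measure (Vec d)))
      (fun w => ENNReal.ofReal (chi R w)) (v t)
    rw [h4]
    have h5 : ∀ w : Vec d, ENNReal.ofReal (chi R w) = (ball (0:Vec d) R).indicator (fun _ => 1) w := by
      intro w
      unfold chi
      by_cases hw : w ∈ ball (0 : Vec d) R
      · rw [indicator_of_mem hw, indicator_of_mem hw, ENNReal.ofReal_one]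
      · rw [indicator_of_notMem hw, indicator_of_notMem hw, ENNReal.ofReal_zero]
    simp only [h5]
    rw [lintegral_indicator measurableSet_ball, setLIntegral_const, one_mul]
    exact vol_ball hd hR
  calc _ ≤ ∫⁻ w, ENNReal.ofReal ((1 + 2 * R / δ) ^ d) * ∑ t, ENNReal.ofReal (chi R (w - v t)) := by
        apply lintegral_mono
        intro w
        beta_reduce
        rw [sq]
        gcongr
        exact h1 w
    _ = ENNReal.ofReal ((1 + 2 * R / δ) ^ d) * ∑ _t : ι, ENNReal.ofReal (R ^ d * om d) := by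
        rw [lintegral_const_mul' _ _ ENNReal.ofReal_ne_top, lintegral_finsetSum _ (fun t _ => hm t)]
        simp only [h3]
    _ = _ := by
        have hom := om_pos (d := d)
        rw [Finset.sum_const, nsmul_eq_mul, Finset.card_univ, ← ENNReal.ofReal_natCast,
          ← ENNReal.ofReal_mul (Nat.cast_nonneg _), ← ENNReal.ofReal_mul (by positivity)]

/-- The domain of the transformed variables. -/
def Wd (d : ℕ) : Set (ℝ × Vec d) := Icc (1 / 2 : ℝ) 1 ×ˢ (univ : Set (Vec d))

theorem Wd_meas : MeasurableSet (Wd d) := measurableSet_Icc.prod MeasurableSet.univ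

/-- The integral of one cylinder. -/
theorem cyl_int (hd : 1 ≤ d) {R : ℝ} (hR : 0 < R) (b v : Vec d) :
    ∫⁻ p in Wd d, ENNReal.ofReal (chi R (p.2 - p.1 • b - v)) ≤ ENNReal.ofReal (R ^ d * om d) := by
  have hm : Measurable fun p : ℝ × Vec d => ENNReal.ofReal (chi R (p.2 - p.1 • b - v)) :=
    ((chi_meas R).comp (by fun_prop)).ennreal_ofReal
  unfold Wd
  rw [Measure.volume_eq_prod, ← Measure.prod_restrict, Measure.restrict_univ,
    lintegral_prod _ hm.aemeasurable]
  have h1 : ∀ r : ℝ, ∫⁻ y : Vec d, ENNReal.ofReal (chi R (y - r • b - v)) = ENNReal.ofReal (R ^ d * om d) := by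
    intro r
    have h4 := lintegral_sub_right_eq_self (μ := (volume : Measure (Vec d)))
      (fun w => ENNReal.ofReal (chi R w)) (r • b + v)
    have e : ∀ y : Vec d, y - r • b - v = y - (r • b + v) := fun y => by abel
    simp only [e]
    rw [h4]
    have h5 : ∀ w : Vec d, ENNReal.ofReal (chi R w) = (ball (0:Vec d) R).indicator (fun _ => 1) w := by
      intro w
      unfold chi
      by_cases hw : w ∈ ball (0 : Vec d) R
      · rw [indicator_of_mem hw, indicator_of_mem hw, ENNReal.ofReal_one]
      · rw [indicator_of_notMem hw, indicator_of_notMem hw, ENNReal.ofReal_zero]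
    simp only [h5]
    rw [lintegral_indicator measurableSet_ball, setLIntegral_const, one_mul]
    exact vol_ball hd hR
  simp only [h1]
  rw [setLIntegral_const, Real.volume_Icc]
  have hom := om_pos (d := d)
  rw [← ENNReal.ofReal_mul (by positivity)]
  apply ENNReal.ofReal_le_ofReal
  have : 0 ≤ R ^ d * om d := by positivity
  nlinarith

/-- The averages over the blocks of level `i`. -/
noncomputable def Pf {ι : Type*} [Fintype ι] (v : ι → Vec d) (κ : ι → ℕ) (b : ℕ → Vec d) (K : ℕ)
    (R : ℝ) (i : ℕ) : ℝ × Vec d → ℝ := cylS (fun t => Aw i (κ t / 2 ^ i)) v b K R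

/-- Their differences. -/
noncomputable def Qf {ι : Type*} [Fintype ι] (v : ι → Vec d) (κ : ι → ℕ) (b : ℕ → Vec d) (K : ℕ)
    (R : ℝ) (i : ℕ) : ℝ × Vec d → ℝ := cylS (fun t => Dw i (κ t / 2 ^ i)) v b K R

section bounds

variable {ι : Type*} [Fintype ι] (v : ι → Vec d) (κ : ι → ℕ) (b : ℕ → Vec d) (K : ℕ) (R : ℝ) (i : ℕ)

theorem Pf_meas : Measurable (Pf v κ b K R i) := cylS_meas _ _ _ _ _

theorem Qf_meas : Measurable (Qf v κ b K R i) := cylS_meas _ _ _ _ _

theorem Qf_eq (p : ℝ × Vec d) : Qf v κ b K R i p = Pf v κ b K R i p - Pf v κ b K R (i + 1) p := by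
  unfold Qf Pf cylS
  rw [← Finset.sum_sub_distrib]
  apply Finset.sum_congr rfl
  intro t _
  rw [← Finset.sum_sub_distrib]
  apply Finset.sum_congr rfl
  intro k _
  unfold Dw
  beta_reduce
  rw [Nat.div_div_eq_div_mul, ← pow_succ]
  ring

theorem Pf_nonneg (p : ℝ × Vec d) : 0 ≤ Pf v κ b K R i p := by
  unfold Pf cylS
  apply Finset.sum_nonneg
  intro t _
  apply Finset.sum_nonneg
  intro k _
  exact mul_nonneg (Aw_nonneg _ _ _) (chi_nonneg _ _)

/-- Telescoping. -/
theorem Pf_tel (I : ℕ) (p : ℝ × Vec d) :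
    Pf v κ b K R 0 p = ∑ i ∈ Finset.range I, Qf v κ b K R i p + Pf v κ b K R I p := by
  induction I with
  | zero => simp
  | succ n ih =>
    rw [Finset.sum_range_succ, ih, Qf_eq]
    ring

theorem Pf_int (hd : 1 ≤ d) {R : ℝ} (hR : 0 < R) :
    ∫⁻ p in Wd d, ENNReal.ofReal (Pf v κ b K R i p) ≤
      ENNReal.ofReal (Fintype.card ι * (R ^ d * om d)) := by
  have hom := om_pos (d := d)
  have hm : ∀ t k, Measurable fun p : ℝ × Vec d =>
      ENNReal.ofReal (Aw i (κ t / 2 ^ i) k) * ENNReal.ofReal (chi R (p.2 - p.1 • b k - v t)) := by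
    intro t k
    apply Measurable.const_mul
    exact ((chi_meas R).comp (by fun_prop)).ennreal_ofReal
  have e : ∀ p, ENNReal.ofReal (Pf v κ b K R i p) = ∑ t, ∑ k ∈ Finset.range K,
      ENNReal.ofReal (Aw i (κ t / 2 ^ i) k) * ENNReal.ofReal (chi R (p.2 - p.1 • b k - v t)) := by
    intro p
    unfold Pf cylS
    rw [ENNReal.ofReal_sum_of_nonneg]
    · apply Finset.sum_congr rfl
      intro t _
      rw [ENNReal.ofReal_sum_of_nonneg]
      · apply Finset.sum_congr rfl
        intro k _
        exact ENNReal.ofReal_mul (Aw_nonneg _ _ _)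
      · intro k _
        exact mul_nonneg (Aw_nonneg _ _ _) (chi_nonneg _ _)
    · intro t _
      apply Finset.sum_nonneg
      intro k _
      exact mul_nonneg (Aw_nonneg _ _ _) (chi_nonneg _ _)
  simp only [e]
  rw [lintegral_finsetSum _ (fun t _ => Finset.measurable_sum _ fun k _ => hm t k)]
  calc _ ≤ ∑ _t : ι, ENNReal.ofReal (R ^ d * om d) := by
        apply Finset.sum_le_sum
        intro t _
        rw [lintegral_finsetSum _ (fun k _ => hm t k)]
        calc _ ≤ ∑ k ∈ Finset.range K, ENNReal.ofReal (Aw i (κ t / 2 ^ i) k) *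
              ENNReal.ofReal (R ^ d * om d) := by
              apply Finset.sum_le_sum
              intro k _
              rw [lintegral_const_mul' _ _ ENNReal.ofReal_ne_top]
              gcongr
              exact cyl_int hd hR _ _
          _ = ENNReal.ofReal (∑ k ∈ Finset.range K, Aw i (κ t / 2 ^ i) k) *
              ENNReal.ofReal (R ^ d * om d) := by
              rw [← Finset.sum_mul, ENNReal.ofReal_sum_of_nonneg fun k _ => Aw_nonneg _ _ _]
          _ ≤ 1 * ENNReal.ofReal (R ^ d * om d) := by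
              gcongr
              rw [← ENNReal.ofReal_one]
              exact ENNReal.ofReal_le_ofReal (Aw_sum_le _ _ _)
          _ = _ := one_mul _
    _ = _ := by
        rw [Finset.sum_const, nsmul_eq_mul, Finset.card_univ, ← ENNReal.ofReal_natCast,
          ← ENNReal.ofReal_mul (Nat.cast_nonneg _)]

/-- The supremum of the averages. -/
theorem Pf_le (hd : 1 ≤ d) {R ε : ℝ} (hε : 0 < ε) (hR : 0 < R)
    (hb : ∀ k < K, ∀ k' < K, k ≠ k' → ε ≤ ‖b k - b k'‖) {p : ℝ × Vec d} (hp : p ∈ Wd d) :
    Pf v κ b K R i p ≤ Fintype.card ι * ((1 + 4 * R / ε) ^ d * (1 / 2) ^ i) := by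
  classical
  have hz : 1 / 2 ≤ p.1 := hp.1.1
  have hz0 : 0 < p.1 := by linarith
  unfold Pf cylS
  calc _ ≤ ∑ _t : ι, (1 + 4 * R / ε) ^ d * (1 / 2) ^ i := by
        apply Finset.sum_le_sum
        intro t _
        calc ∑ k ∈ Finset.range K, Aw i (κ t / 2 ^ i) k * chi R (p.2 - p.1 • b k - v t)
            ≤ ∑ k ∈ Finset.range K, if ‖p.2 - p.1 • b k - v t‖ < R then (1 / 2 : ℝ) ^ i else 0 := by
              apply Finset.sum_le_sum
              intro k _
              split_ifs with h
              · rw [chi_one h, mul_one]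
                unfold Aw
                split_ifs
                · exact le_rfl
                · positivity
              · rw [chi_zero (not_lt.1 h), mul_zero]
          _ = (((Finset.range K).filter (fun k => ‖p.2 - p.1 • b k - v t‖ < R)).card : ℝ) * (1 / 2) ^ i := by
              rw [← Finset.sum_filter, Finset.sum_const, nsmul_eq_mul]
          _ ≤ (1 + 4 * R / ε) ^ d * (1 / 2) ^ i := by
              gcongr
              have h1 := packing hd ((Finset.range K).filter (fun k => ‖p.2 - p.1 • b k - v t‖ < R))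
                b (p.1⁻¹ • (p.2 - v t)) hε (R := 2 * R) (by positivity) (by
                  intro k hk k' hk' hkk
                  rw [Finset.mem_filter, Finset.mem_range] at hk hk'
                  exact hb k hk.1 k' hk'.1 hkk) (by
                  intro k hk
                  rw [Finset.mem_filter] at hk
                  have h2 := hk.2
                  have e1 : b k - p.1⁻¹ • (p.2 - v t) = -(p.1⁻¹ • (p.2 - p.1 • b k - v t)) := by
                    have : p.2 - p.1 • b k - v t = (p.2 - v t) - p.1 • b k := by abel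
                    rw [this, smul_sub p.1⁻¹ (p.2 - v t), smul_smul, inv_mul_cancel₀ hz0.ne', one_smul]
                    abel
                  rw [e1, norm_neg, norm_smul, norm_inv, Real.norm_eq_abs, abs_of_pos hz0]
                  have h3 : p.1⁻¹ ≤ 2 := by
                    rw [inv_le_comm₀ hz0 (by norm_num)]
                    linarith
                  calc _ ≤ 2 * R := mul_le_mul h3 h2.le (norm_nonneg _) (by norm_num))
              calc _ ≤ (1 + 2 * (2 * R) / ε) ^ d := h1
                _ = _ := by ring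
    _ = _ := by simp

end bounds

end Pool.Agent.U527.Crv
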