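import Pool.Agent.U527.Crv.OneD

set_option autoImplicit false

/-! Averages over dyadic blocks of indices. -/

open MeasureTheory Set ENNReal Real

namespace Pool.Agent.U527.Crv

/-- The weight of the index `k` in the block number `j` of level `i`. -/
noncomputable def Aw (i j k : ℕ) : ℝ := if k / 2 ^ i = j then (1 / 2) ^ i else 0

/-- The difference between the weights of a block and of its parent. -/
noncomputable def Dw (i j k : ℕ) : ℝ := Aw i j k - Aw (i + 1) (j / 2) k

theorem Aw_nonneg (i j k : ℕ) : 0 ≤ Aw i j k := by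
  unfold Aw
  split_ifs <;> positivity

theorem block_card (n j : ℕ) (hn : 0 < n) (K : ℕ) :
    (Finset.range K).filter (fun k => k / n = j) ⊆ Finset.Ico (n * j) (n * (j + 1)) := by
  intro k hk
  rw [Finset.mem_filter] at hk
  rw [Finset.mem_Ico]
  have := hk.2
  rw [Nat.div_eq_iff hn] at this
  constructor
  · calc n * j = j * n := mul_comm _ _
      _ ≤ k := this.1
  · have h2 := this.2
    have : j * n + n - 1 < n * (j + 1) := by
      have : n * (j + 1) = j * n + n := by ring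
      omega
    omega

theorem Aw_sum_le (i j K : ℕ) : ∑ k ∈ Finset.range K, Aw i j k ≤ 1 := by
  unfold Aw
  rw [← Finset.sum_filter, Finset.sum_const, nsmul_eq_mul]
  have h1 := Finset.card_le_card (block_card (2 ^ i) j (by positivity) K)
  rw [Nat.card_Ico] at h1
  have h2 : 2 ^ i * (j + 1) - 2 ^ i * j = 2 ^ i := by
    rw [mul_add, mul_one, Nat.add_sub_cancel_left]
  rw [h2] at h1
  have h3 : (((Finset.range K).filter (fun k => k / 2 ^ i = j)).card : ℝ) ≤ 2 ^ i := by
    exact_mod_cast h1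
  calc _ ≤ (2:ℝ) ^ i * (1 / 2) ^ i := by gcongr
    _ = 1 := by rw [← mul_pow]; norm_num

theorem Aw_sum_eq (i j K : ℕ) (h : 2 ^ i * (j + 1) ≤ K) : ∑ k ∈ Finset.range K, Aw i j k = 1 := by
  unfold Aw
  rw [← Finset.sum_filter, Finset.sum_const, nsmul_eq_mul]
  have h1 : (Finset.range K).filter (fun k => k / 2 ^ i = j) =
      Finset.Ico (2 ^ i * j) (2 ^ i * (j + 1)) := by
    apply Finset.Subset.antisymm (block_card (2 ^ i) j (by positivity) K)
    intro k hk
    rw [Finset.mem_Ico] at hk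
    rw [Finset.mem_filter, Finset.mem_range]
    refine ⟨lt_of_lt_of_le hk.2 h, ?_⟩
    rw [Nat.div_eq_iff (by positivity)]
    constructor
    · rw [mul_comm]; exact hk.1
    · have h2 := hk.2
      have : 2 ^ i * (j + 1) = j * 2 ^ i + 2 ^ i := by ring
      omega
  rw [h1, Nat.card_Ico]
  have h2 : 2 ^ i * (j + 1) - 2 ^ i * j = 2 ^ i := by
    rw [mul_add, mul_one, Nat.add_sub_cancel_left]
  rw [h2]
  push_cast
  rw [← mul_pow]
  norm_num

theorem Dw_abs (i j k : ℕ) : |Dw i j k| ≤ Aw i j k + Aw (i + 1) (j / 2) k := by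
  unfold Dw
  have h1 := Aw_nonneg i j k
  have h2 := Aw_nonneg (i + 1) (j / 2) k
  rw [abs_le]
  constructor <;> linarith

theorem Dw_abs_sum (i j K : ℕ) : ∑ k ∈ Finset.range K, |Dw i j k| ≤ 2 := by
  calc _ ≤ ∑ k ∈ Finset.range K, (Aw i j k + Aw (i + 1) (j / 2) k) :=
        Finset.sum_le_sum fun k _ => Dw_abs i j k
    _ = (∑ k ∈ Finset.range K, Aw i j k) + ∑ k ∈ Finset.range K, Aw (i + 1) (j / 2) k :=
        Finset.sum_add_distrib
    _ ≤ 1 + 1 := add_le_add (Aw_sum_le _ _ _) (Aw_sum_le _ _ _)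
    _ = 2 := by norm_num

/-- Nonzero weights only occur inside the parent block. -/
theorem Dw_supp {i j k : ℕ} (h : Dw i j k ≠ 0) : k / 2 ^ (i + 1) = j / 2 := by
  by_contra hcon
  apply h
  unfold Dw Aw
  rw [if_neg hcon, if_neg, sub_zero]
  intro h1
  apply hcon
  rw [← h1, pow_succ, Nat.div_div_eq_div_mul]

theorem Dw_sum_eq (i j K : ℕ) (h : 2 ^ (i + 1) * (j / 2 + 1) ≤ K) :
    ∑ k ∈ Finset.range K, Dw i j k = 0 := by
  unfold Dw
  rw [Finset.sum_sub_distrib, Aw_sum_eq (i + 1) (j / 2) K h, Aw_sum_eq i j K, sub_self]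
  calc 2 ^ i * (j + 1) ≤ 2 ^ i * (2 * (j / 2 + 1)) := by
        apply Nat.mul_le_mul_left
        omega
    _ = 2 ^ (i + 1) * (j / 2 + 1) := by ring
    _ ≤ K := h

/-- Norm of a sum with small weights. -/
theorem norm_wsum {K i j : ℕ} (g : ℕ → ℂ) {B : ℝ} (hB : 0 ≤ B)
    (h : ∀ k < K, Dw i j k ≠ 0 → ‖g k‖ ≤ B) :
    ‖∑ k ∈ Finset.range K, ((Dw i j k : ℝ) : ℂ) * g k‖ ≤ 2 * B := by
  calc _ ≤ ∑ k ∈ Finset.range K, ‖((Dw i j k : ℝ) : ℂ) * g k‖ := norm_sum_le _ _
    _ ≤ ∑ k ∈ Finset.range K, |Dw i j k| * B := by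
        apply Finset.sum_le_sum
        intro k hk
        rw [norm_mul, Complex.norm_real, Real.norm_eq_abs]
        by_cases h0 : Dw i j k = 0
        · rw [h0]; simp
        · exact mul_le_mul_of_nonneg_left (h k (Finset.mem_range.1 hk) h0) (abs_nonneg _)
    _ = (∑ k ∈ Finset.range K, |Dw i j k|) * B := by rw [Finset.sum_mul]
    _ ≤ 2 * B := mul_le_mul_of_nonneg_right (Dw_abs_sum i j K) hB

/-- The same in extended numbers. -/
theorem enorm_wsum {K i j : ℕ} (g : ℕ → ℂ) {B : ℝ≥0∞}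
    (h : ∀ k < K, Dw i j k ≠ 0 → ‖g k‖ₑ ^ 2 ≤ B) :
    ‖∑ k ∈ Finset.range K, ((Dw i j k : ℝ) : ℂ) * g k‖ₑ ^ 2 ≤ 4 * B := by
  rcases eq_or_ne B ∞ with hB | hB
  · rw [hB, ENNReal.mul_top (by norm_num)]
    exact le_top
  have h2 := norm_wsum (K := K) (i := i) (j := j) g (B := √B.toReal) (Real.sqrt_nonneg _) (by
    intro k hk h0
    apply Real.le_sqrt_of_sq_le
    have h3 := h k hk h0
    rw [← ENNReal.ofReal_le_iff_le_toReal hB]
    rw [ENNReal.ofReal_pow (norm_nonneg _), ofReal_norm]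
    exact h3)
  have h3 : ‖∑ k ∈ Finset.range K, ((Dw i j k : ℝ) : ℂ) * g k‖ ^ 2 ≤ 4 * B.toReal := by
    calc _ ≤ (2 * √B.toReal) ^ 2 := pow_le_pow_left₀ (norm_nonneg _) h2 2
      _ = 4 * B.toReal := by rw [mul_pow, Real.sq_sqrt ENNReal.toReal_nonneg]; norm_num
  rw [← ofReal_norm, ← ENNReal.ofReal_pow (norm_nonneg _)]
  calc _ ≤ ENNReal.ofReal (4 * B.toReal) := ENNReal.ofReal_le_ofReal h3
    _ = 4 * B := by
        rw [ENNReal.ofReal_mul (by norm_num), ENNReal.ofReal_toReal hB]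
        norm_num

/-- The crossing property: for almost every level `u`, at most `M` disjoint blocks of consecutive
indices contain values on both sides of `u`. -/
def CrossAt (M K : ℕ) (φ : ℕ → ℝ) : Prop :=
  ∀ᵐ u : ℝ, ∀ (T : Finset ℕ) (l r : ℕ → ℕ), (∀ m ∈ T, r m < K) →
    (∀ m ∈ T, ∀ m' ∈ T, m < m' → r m < l m') →
    (∀ m ∈ T, ∃ k k', l m ≤ k ∧ k ≤ r m ∧ l m ≤ k' ∧ k' ≤ r m ∧ φ k ≤ u ∧ u ≤ φ k') → T.card ≤ M

/-- The hull of the values of a full block. -/
theorem exists_hull (φ : ℕ → ℝ) (n m : ℕ) (hn : 0 < n) :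
    ∃ p q, n * m ≤ p ∧ p < n * (m + 1) ∧ n * m ≤ q ∧ q < n * (m + 1) ∧
      ∀ k, n * m ≤ k → k < n * (m + 1) → φ k ∈ Icc (φ p) (φ q) := by
  have hne : (Finset.Ico (n * m) (n * (m + 1))).Nonempty := by
    rw [Finset.nonempty_Ico]
    nlinarith
  obtain ⟨p, hp, hp2⟩ := Finset.exists_min_image _ φ hne
  obtain ⟨q, hq, hq2⟩ := Finset.exists_max_image _ φ hne
  rw [Finset.mem_Ico] at hp hq
  refine ⟨p, q, hp.1, hp.2, hq.1, hq.2, ?_⟩
  intro k h1 h2
  exact ⟨hp2 k (Finset.mem_Ico.2 ⟨h1, h2⟩), hq2 k (Finset.mem_Ico.2 ⟨h1, h2⟩)⟩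

/-- The square sum over the blocks of one level. -/
theorem blocks {M K : ℕ} {φ : ℕ → ℝ} (hφ : CrossAt M K φ) {G G' : ℝ → ℂ}
    (hG : ∀ x, HasDerivAt G (G' x) x) (hG' : Continuous G') (i J : ℕ) :
    ∑ j ∈ Finset.range J, ‖∑ k ∈ Finset.range K, ((Dw i j k : ℝ) : ℂ) * G (φ k)‖ₑ ^ 2 ≤
      64 * (M + 1) * ∫⁻ x, en G G' x := by
  classical
  have hGc : Continuous G := continuous_iff_continuousAt.2 fun x => (hG x).continuousAt
  have hem := en_meas hGc hG'
  set n : ℕ := 2 ^ (i + 1) with hn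
  have hn0 : 0 < n := by positivity
  choose p q hp1 hp2 hq1 hq2 hpq using fun m => exists_hull φ n m hn0
  set E : ℝ≥0∞ := ∫⁻ x, en G G' x with hE
  -- full blocks
  have hfull : ∀ j, n * (j / 2 + 1) ≤ K →
      ‖∑ k ∈ Finset.range K, ((Dw i j k : ℝ) : ℂ) * G (φ k)‖ₑ ^ 2 ≤
        32 * ∫⁻ x in Icc (φ (p (j / 2))) (φ (q (j / 2))), en G G' x := by
    intro j hj
    set c : ℂ := G (φ (p (j / 2))) with hc
    have e1 : ∑ k ∈ Finset.range K, ((Dw i j k : ℝ) : ℂ) * G (φ k) =
        ∑ k ∈ Finset.range K, ((Dw i j k : ℝ) : ℂ) * (G (φ k) - c) := by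
      have h0 := Dw_sum_eq i j K hj
      have h1 : ∑ k ∈ Finset.range K, ((Dw i j k : ℝ) : ℂ) = 0 := by
        rw [← Complex.ofReal_sum, h0, Complex.ofReal_zero]
      simp only [mul_sub]
      rw [Finset.sum_sub_distrib, ← Finset.sum_mul, h1]
      ring
    rw [e1]
    refine (enorm_wsum (B := 8 * ∫⁻ x in Icc (φ (p (j / 2))) (φ (q (j / 2))), en G G' x) _ ?_).trans
      (le_of_eq (by ring))
    intro k hk h0
    have h1 := Dw_supp h0
    rw [← hn, Nat.div_eq_iff hn0] at h1
    have h2 : n * (j / 2) ≤ k := by rw [mul_comm]; exact h1.1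
    have h3 : k < n * (j / 2 + 1) := by
      have := h1.2
      have h4 : n * (j / 2 + 1) = j / 2 * n + n := by ring
      omega
    apply diff_sq_le hG hG' (hpq _ k h2 h3)
    exact hpq _ _ (hp1 _) (hp2 _)
  -- other blocks
  have hother : ∀ j, K < n * (j / 2 + 1) → n * (j / 2) < K →
      ‖∑ k ∈ Finset.range K, ((Dw i j k : ℝ) : ℂ) * G (φ k)‖ₑ ^ 2 ≤ 8 * E := by
    intro j _ _
    refine (enorm_wsum (B := 2 * E) _ ?_).trans (le_of_eq (by ring))
    intro k _ _
    exact sup_line hG hG' _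
  have hempty : ∀ j, K ≤ n * (j / 2) →
      ‖∑ k ∈ Finset.range K, ((Dw i j k : ℝ) : ℂ) * G (φ k)‖ₑ ^ 2 = 0 := by
    intro j hj
    have : ∑ k ∈ Finset.range K, ((Dw i j k : ℝ) : ℂ) * G (φ k) = 0 := by
      apply Finset.sum_eq_zero
      intro k hk
      by_cases h0 : Dw i j k = 0
      · rw [h0]; simp
      · exfalso
        have h1 := Dw_supp h0
        rw [← hn, Nat.div_eq_iff hn0] at h1
        have h2 : n * (j / 2) ≤ k := by rw [mul_comm]; exact h1.1
        have := Finset.mem_range.1 hk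
        omega
    rw [this]
    simp
  -- pointwise bound
  set F : Finset ℕ := (Finset.range J).filter (fun j => n * (j / 2 + 1) ≤ K) with hF
  have hpt : ∀ j ∈ Finset.range J, ‖∑ k ∈ Finset.range K, ((Dw i j k : ℝ) : ℂ) * G (φ k)‖ₑ ^ 2 ≤
      (if n * (j / 2 + 1) ≤ K then
        32 * ∫⁻ x, (Icc (φ (p (j / 2))) (φ (q (j / 2)))).indicator (en G G') x else 0) +
      (if j / 2 = K / n then 8 * E else 0) := by
    intro j _
    by_cases h1 : n * (j / 2 + 1) ≤ K
    · rw [if_pos h1, lintegral_indicator measurableSet_Icc]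
      exact (hfull j h1).trans le_self_add
    · rw [if_neg h1, zero_add]
      by_cases h2 : n * (j / 2) < K
      · rw [if_pos]
        · exact hother j (not_le.1 h1) h2
        · symm
          rw [Nat.div_eq_iff hn0]
          have h4 : n * (j / 2 + 1) = j / 2 * n + n := by ring
          have h5 : n * (j / 2) = j / 2 * n := by ring
          omega
      · rw [hempty j (not_lt.1 h2)]
        exact zero_le
  refine (Finset.sum_le_sum hpt).trans ?_
  rw [Finset.sum_add_distrib, ← Finset.sum_filter, ← Finset.sum_filter, ← hF]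
  -- the number of the other blocks
  have hc2 : ∑ j ∈ (Finset.range J).filter (fun j => j / 2 = K / n), 8 * E ≤ 16 * E := by
    rw [Finset.sum_const, nsmul_eq_mul]
    have h1 : ((Finset.range J).filter (fun j => j / 2 = K / n)).card ≤ 2 := by
      have : (Finset.range J).filter (fun j => j / 2 = K / n) ⊆
          {2 * (K / n), 2 * (K / n) + 1} := by
        intro j hj
        rw [Finset.mem_filter] at hj
        rw [Finset.mem_insert, Finset.mem_singleton]
        omega
      exact (Finset.card_le_card this).trans Finset.card_le_two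
    have h2 : ((((Finset.range J).filter (fun j => j / 2 = K / n)).card : ℕ) : ℝ≥0∞) ≤ 2 := by
      exact_mod_cast h1
    calc _ ≤ 2 * (8 * E) := by gcongr
      _ = 16 * E := by ring
  -- the full blocks
  have hc1 : ∑ j ∈ F, 32 * ∫⁻ x, (Icc (φ (p (j / 2))) (φ (q (j / 2)))).indicator (en G G') x ≤
      64 * M * E := by
    rw [← Finset.mul_sum, ← lintegral_finsetSum _ (fun j _ => hem.indicator measurableSet_Icc)]
    have h1 : ∀ᵐ x : ℝ, ∑ j ∈ F, (Icc (φ (p (j / 2))) (φ (q (j / 2)))).indicator (en G G') x ≤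
        (2 * M : ℝ≥0∞) * en G G' x := by
      filter_upwards [hφ] with u hu
      set T : Finset ℕ := (F.image (fun j => j / 2)).filter
        (fun m => u ∈ Icc (φ (p m)) (φ (q m))) with hT
      have hTc : T.card ≤ M := by
        apply hu T (fun m => n * m) (fun m => n * (m + 1) - 1)
        · intro m hm
          rw [hT, Finset.mem_filter, Finset.mem_image] at hm
          obtain ⟨⟨j, hj, rfl⟩, _⟩ := hm
          rw [hF, Finset.mem_filter] at hj
          have : 0 < n * (j / 2 + 1) := by positivity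
          have := hj.2
          omega
        · intro m _ m' _ hmm
          have h2 : n * (m + 1) ≤ n * m' := Nat.mul_le_mul_left _ hmm
          have h3 : 0 < n * (m + 1) := by positivity
          omega
        · intro m hm
          rw [hT, Finset.mem_filter] at hm
          have a1 := hp1 m
          have a2 := hp2 m
          have a3 := hq1 m
          have a4 := hq2 m
          exact ⟨p m, q m, a1, by omega, a3, by omega, hm.2.1, hm.2.2⟩
      have h2 : ∑ j ∈ F, (Icc (φ (p (j / 2))) (φ (q (j / 2)))).indicator (en G G') u =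
          ((F.filter (fun j => u ∈ Icc (φ (p (j / 2))) (φ (q (j / 2))))).card : ℝ≥0∞) *
            en G G' u := by
        have h5 : ∑ j ∈ F, (Icc (φ (p (j / 2))) (φ (q (j / 2)))).indicator (en G G') u =
            ∑ j ∈ F, if u ∈ Icc (φ (p (j / 2))) (φ (q (j / 2))) then en G G' u else 0 :=
          Finset.sum_congr rfl fun j _ => indicator_apply _ _ _
        rw [h5, ← Finset.sum_filter, Finset.sum_const, nsmul_eq_mul]
      rw [h2]
      gcongr
      have h3 : (F.filter (fun j => u ∈ Icc (φ (p (j / 2))) (φ (q (j / 2))))).card ≤ 2 * T.card := by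
        refine Finset.card_le_mul_card_image_of_maps_to (f := fun j => j / 2) ?_ 2 ?_
        · intro j hj
          rw [Finset.mem_filter] at hj
          rw [hT, Finset.mem_filter]
          exact ⟨Finset.mem_image_of_mem _ hj.1, hj.2⟩
        · intro m _
          have : (F.filter (fun j => u ∈ Icc (φ (p (j / 2))) (φ (q (j / 2))))).filter
              (fun j => j / 2 = m) ⊆ {2 * m, 2 * m + 1} := by
            intro j hj
            rw [Finset.mem_filter] at hj
            rw [Finset.mem_insert, Finset.mem_singleton]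
            omega
          exact (Finset.card_le_card this).trans Finset.card_le_two
      calc (((F.filter (fun j => u ∈ Icc (φ (p (j / 2))) (φ (q (j / 2))))).card : ℕ) : ℝ≥0∞)
          ≤ ((2 * T.card : ℕ) : ℝ≥0∞) := by exact_mod_cast h3
        _ ≤ ((2 * M : ℕ) : ℝ≥0∞) := by exact_mod_cast Nat.mul_le_mul_left 2 hTc
        _ = 2 * M := by push_cast; ring
    calc _ ≤ 32 * ∫⁻ x, (2 * M : ℝ≥0∞) * en G G' x := by
          gcongr 32 * ?_
          exact lintegral_mono_ae h1
      _ = 64 * M * E := by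
          rw [lintegral_const_mul _ hem, hE]
          ring
  calc _ ≤ 64 * M * E + 16 * E := add_le_add hc1 hc2
    _ ≤ 64 * M * E + 64 * E := by gcongr; norm_num
    _ = 64 * (M + 1) * E := by ring

end Pool.Agent.U527.Crv
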