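import Pool.Agent.U527.Crv.Total
import Pool.Agent.H810R3.Tub.Bounds

set_option autoImplicit false

/-! The tube inequality for tubes through a curve. -/

open MeasureTheory Set ENNReal NNReal Real Metric

namespace Pool.Agent.U527.Crv

open Pool.Agent.H810R3.Tub

variable {d : ℕ}

/-- Pointwise comparison with the slabs. -/
theorem Fe_le_Uf {ι : Type} [Fintype ι] {S : ℝ≥0} {δ : ℝ} (hδ : 0 < δ) (hδ1 : δ < 1)
    (v β : ι → Vec d) (s : ι → ℝ) (hv : ∀ i, ‖v i‖ ≤ 1) (hs : ∀ i, |s i| ≤ S) (x : Vec d) (t : ℝ) :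
    Fe δ v β s x t ≤ (Icc (-(S + 3 / 2 : ℝ)) (S + 3 / 2)).indicator (fun t => Uf δ v β x t) t := by
  by_cases ht : t ∈ Icc (-(S + 3 / 2 : ℝ)) (S + 3 / 2)
  · rw [indicator_of_mem ht]
    unfold Fe Uf
    apply Finset.sum_le_sum
    intro i _
    by_cases hmem : (WithLp.toLp 2 (x, t) : Space d) ∈ tube δ (dir (v i)) (WithLp.toLp 2 (β i + s i • v i, s i))
    · rw [indicator_of_mem hmem]
      rw [tube_eq] at hmem
      obtain ⟨_, hx⟩ := Pool.Agent.H803R2.KakFTO.tube_subset hδ hδ1 (fun _ => β i) (hv i) (s i) hmem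
      rw [chi_one, ENNReal.ofReal_one]
      have e : x - β i - t • v i = x - (β i + t • v i) := by abel
      rw [e]
      calc _ ≤ 2 * δ := hx
        _ < 3 * δ := by linarith
    · rw [indicator_of_notMem hmem]
      exact zero_le
  · rw [indicator_of_notMem ht]
    unfold Fe
    apply le_of_eq
    apply Finset.sum_eq_zero
    intro i _
    apply indicator_of_notMem
    intro hmem
    rw [tube_eq] at hmem
    obtain ⟨h1, _⟩ := Pool.Agent.H803R2.KakFTO.tube_subset hδ hδ1 (fun _ => β i) (hv i) (s i) hmem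
    apply ht
    have h2 := abs_le.1 (hs i)
    constructor <;> linarith [h1.1, h1.2, h2.1, h2.2]

/-- Exponents at most `2`, slices. -/
theorem slices_two (hd : 1 ≤ d) (K S : ℝ≥0) {q : ℝ} (hq : 1 + 1 / (d:ℝ) < q) (hq2 : q ≤ 2) :
    ∃ E : ℝ, 0 < E ∧ ∀ (M : ℕ) (γ : ℝ → Vec d), ContinuousOn γ (Icc 0 1) → OrderLE M γ →
      ∀ δ : ℝ, 0 < δ → δ < 1 → ∀ (ι : Type) [Fintype ι] [Nonempty ι] (v β : ι → Vec d) (s τ : ι → ℝ),
        (∀ i, ‖v i‖ ≤ 1) → (∀ i, |s i| ≤ S) → (∀ i, τ i ∈ Icc (0:ℝ) 1) →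
        (∀ i, ‖β i - γ (τ i)‖ ≤ K * δ) → (∀ i j, i ≠ j → δ ≤ ‖v i - v j‖) →
        ∫⁻ t : ℝ, ∫⁻ x : Vec d, Fe δ v β s x t ^ q ≤
          ENNReal.ofReal (E * ((1 + M : ℝ) ^ (q - 1) * (δ ^ d * (Fintype.card ι : ℝ) ^ (q - 1 / d)))) := by
  have hom := om_pos (d := d)
  have hd0 : (0:ℝ) < d := by exact_mod_cast hd
  have hd1 : (0:ℝ) < 1 / d := by positivity
  set β₀ : ℝ := (q - (1 + 1 / d)) / 2 with hβ₀
  have hβ0 : 0 < β₀ := by rw [hβ₀]; linarith
  set q₀ : ℝ := 1 + 1 / d + β₀ with hq₀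
  have hqq : q = q₀ + β₀ := by rw [hq₀, hβ₀]; ring
  have hq0 : 0 < q := by linarith
  set k₀ : ℝ := K + 4 with hk₀
  set T : ℝ := S + 3 / 2 with hT
  have hK0 : (0:ℝ) ≤ K := K.2
  have hS0 : (0:ℝ) ≤ S := S.2
  have hT0 : 0 < T := by rw [hT]; linarith
  have hk0 : 0 < k₀ := by rw [hk₀]; linarith
  have hE1 : 0 < E1 d q₀ β₀ k₀ T := E1_pos hk0 hT0
  have hr1 : (((1:ℝ) / 2) ^ (β₀ / q)) < 1 := Real.rpow_lt_one (by norm_num) (by norm_num) (by positivity)
  have hr2 : (((1:ℝ) / 2) ^ (d * β₀)) < 1 := Real.rpow_lt_one (by norm_num) (by norm_num) (by positivity)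
  have hi1 : 0 < (1 - ((1:ℝ) / 2) ^ (β₀ / q))⁻¹ := inv_pos.2 (by linarith)
  have hi2 : 0 < (1 - ((1:ℝ) / 2) ^ (d * β₀))⁻¹ := inv_pos.2 (by linarith)
  refine ⟨2 * (3 ^ d * om d) + 2 * (E1 d q₀ β₀ k₀ T *
        ((1 - (1 / 2) ^ (β₀ / q))⁻¹) ^ q * (1 - (1 / 2) ^ (d * β₀))⁻¹), by positivity, ?_⟩
  intro M γ hγ ho δ hδ hδ1 ι _ _ v β s τ hv hs hτ hb hsep
  have h1 := total hd hγ ho (k₀ := k₀) (T := T) hδ (by rw [hk₀]; linarith) hT0 hβ0 hq₀ hqq (by linarith)
    v β τ hτ hsep (by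
      intro t
      rw [hk₀, add_sub_cancel_right]
      exact hb t)
  calc ∫⁻ t : ℝ, ∫⁻ x : Vec d, Fe δ v β s x t ^ q
      ≤ ∫⁻ t : ℝ, (Icc (-T) T).indicator (fun t => ∫⁻ x : Vec d, (Uf δ v β x t) ^ q) t := by
        apply lintegral_mono
        intro t
        by_cases ht : t ∈ Icc (-T) T
        · rw [indicator_of_mem ht]
          apply lintegral_mono
          intro x
          have h2 := Fe_le_Uf hδ hδ1 v β s hv hs x t
          rw [← hT, indicator_of_mem ht] at h2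
          exact ENNReal.rpow_le_rpow h2 hq0.le
        · rw [indicator_of_notMem ht]
          have h3 : ∀ x, Fe δ v β s x t ^ q = 0 := by
            intro x
            have h2 := Fe_le_Uf hδ hδ1 v β s hv hs x t
            rw [← hT, indicator_of_notMem ht] at h2
            rw [nonpos_iff_eq_zero.1 h2, ENNReal.zero_rpow_of_pos hq0]
          simp [h3]
    _ = ∫⁻ t in Icc (-T) T, ∫⁻ x : Vec d, (Uf δ v β x t) ^ q := lintegral_indicator measurableSet_Icc _
    _ ≤ _ := h1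
    _ ≤ _ := by
        apply ENNReal.ofReal_le_ofReal
        have hM0 : (0:ℝ) ≤ M := Nat.cast_nonneg M
        have h4 : (M + 1 : ℝ) ^ (q₀ - 1) ≤ (1 + M : ℝ) ^ (q - 1) := by
          rw [add_comm (M:ℝ) 1]
          exact Real.rpow_le_rpow_of_exponent_le (by linarith) (by linarith)
        gcongr

/-- All exponents, slices. -/
theorem slices (hd : 2 ≤ d) (K S : ℝ≥0) {q : ℝ} (hq : 1 + 1 / (d:ℝ) < q) :
    ∃ E : ℝ, 0 < E ∧ ∀ (M : ℕ) (γ : ℝ → Vec d), ContinuousOn γ (Icc 0 1) → OrderLE M γ →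
      ∀ δ : ℝ, 0 < δ → δ < 1 → ∀ (ι : Type) [Fintype ι] [Nonempty ι] (v β : ι → Vec d) (s τ : ι → ℝ),
        (∀ i, ‖v i‖ ≤ 1) → (∀ i, |s i| ≤ S) → (∀ i, τ i ∈ Icc (0:ℝ) 1) →
        (∀ i, ‖β i - γ (τ i)‖ ≤ K * δ) → (∀ i j, i ≠ j → δ ≤ ‖v i - v j‖) →
        ∫⁻ t : ℝ, ∫⁻ x : Vec d, Fe δ v β s x t ^ q ≤
          ENNReal.ofReal (E * ((1 + M : ℝ) ^ (q - 1) * (δ ^ d * (Fintype.card ι : ℝ) ^ (q - 1 / d)))) := by
  rcases le_total q 2 with hq2 | hq2
  · exact slices_two (by omega) K S hq hq2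
  have hd0 : (0:ℝ) < d := by exact_mod_cast (by omega : 0 < d)
  have hd2 : 1 + 1 / (d:ℝ) < 2 := by
    have h1 : (2:ℝ) ≤ d := by exact_mod_cast hd
    have h2 : 1 / (d:ℝ) ≤ 1 / 2 := one_div_le_one_div_of_le (by norm_num) h1
    linarith
  obtain ⟨E, hE, h⟩ := slices_two (d := d) (by omega) K S hd2 le_rfl
  refine ⟨E, hE, ?_⟩
  intro M γ hγ ho δ hδ hδ1 ι _ _ v β s τ hv hs hτ hb hsep
  have h2 := h M γ hγ ho δ hδ hδ1 ι v β s τ hv hs hτ hb hsep
  have hN1 : (1:ℝ) ≤ Fintype.card ι := by exact_mod_cast Fintype.card_pos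
  set N : ℝ := (Fintype.card ι : ℝ) with hNd
  have hN : 0 < N := by linarith
  have hFN : ∀ x t, Fe δ v β s x t ≤ ENNReal.ofReal N := by
    intro x t
    unfold Fe
    calc _ ≤ ∑ _i : ι, (1:ℝ≥0∞) := by
          apply Finset.sum_le_sum
          intro i _
          exact indicator_le_self' (fun _ _ => zero_le_one) _
      _ = ENNReal.ofReal N := by simp [hNd]
  calc ∫⁻ t : ℝ, ∫⁻ x : Vec d, Fe δ v β s x t ^ q
      ≤ ∫⁻ t : ℝ, ∫⁻ x : Vec d, ENNReal.ofReal (N ^ (q - 2)) * Fe δ v β s x t ^ (2:ℝ) := by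
        apply lintegral_mono
        intro t
        apply lintegral_mono
        intro x
        beta_reduce
        have e : q = (q - 2) + 2 := by ring
        conv_lhs => rw [e, ENNReal.rpow_add_of_nonneg _ _ (by linarith) (by norm_num)]
        rw [← ENNReal.ofReal_rpow_of_pos hN]
        gcongr
        exact hFN x t
    _ = ENNReal.ofReal (N ^ (q - 2)) * ∫⁻ t : ℝ, ∫⁻ x : Vec d, Fe δ v β s x t ^ (2:ℝ) := by
        simp only [lintegral_const_mul' _ _ ENNReal.ofReal_ne_top]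
    _ ≤ ENNReal.ofReal (N ^ (q - 2)) * ENNReal.ofReal (E * ((1 + M : ℝ) ^ ((2:ℝ) - 1) *
          (δ ^ d * N ^ ((2:ℝ) - 1 / d)))) := by gcongr
    _ = ENNReal.ofReal (N ^ (q - 2) * (E * ((1 + M : ℝ) ^ ((2:ℝ) - 1) *
          (δ ^ d * N ^ ((2:ℝ) - 1 / d))))) := (ENNReal.ofReal_mul (by positivity)).symm
    _ ≤ _ := by
        apply ENNReal.ofReal_le_ofReal
        have hM0 : (0:ℝ) ≤ M := Nat.cast_nonneg M
        have h4 : (1 + M : ℝ) ^ ((2:ℝ) - 1) ≤ (1 + M : ℝ) ^ (q - 1) :=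
          Real.rpow_le_rpow_of_exponent_le (by linarith) (by linarith)
        have h5 : N ^ (q - 1 / d) = N ^ (q - 2) * N ^ ((2:ℝ) - 1 / d) := by
          rw [← Real.rpow_add hN]
          congr 1
          ring
        rw [h5]
        calc _ = E * ((1 + M : ℝ) ^ ((2:ℝ) - 1) * (δ ^ d * (N ^ (q - 2) * N ^ ((2:ℝ) - 1 / d)))) := by ring
          _ ≤ _ := by gcongr

/-- The tube inequality for tubes through a curve of bounded order. -/
theorem tubes (d : ℕ) (hd : 2 ≤ d) (q : ℝ) (hq : ((d : ℝ) + 1) / d < q) (K S : ℝ≥0) :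
    ∃ C : ℝ, 0 < C ∧ ∀ (M : ℕ) (γ : ℝ → Vec d), ContinuousOn γ (Icc 0 1) → OrderLE M γ →
      ∀ δ : ℝ, 0 < δ → δ < 1 → ∀ (ι : Type) [Fintype ι] (v β : ι → Vec d) (s τ : ι → ℝ),
        (∀ i, ‖v i‖ ≤ 1) → (∀ i, |s i| ≤ S) → (∀ i, τ i ∈ Icc (0:ℝ) 1) →
        (∀ i, ‖β i - γ (τ i)‖ ≤ K * δ) → (∀ i j, i ≠ j → δ ≤ ‖dir (v i) - dir (v j)‖) →
        eLpNorm (fun y : Space d => ∑ i,
            (tube δ (dir (v i)) (WithLp.toLp 2 (β i + s i • v i, s i))).indicator (fun _ => (1 : ℝ)) y)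
            (ENNReal.ofReal q) volume
          ≤ ENNReal.ofReal (C * (1 + M : ℝ) ^ (1 - 1 / q) *
              δ ^ ((d : ℝ) / q) * (Fintype.card ι : ℝ) ^ (1 - 1 / (q * d))) := by
  have hd0 : (0 : ℝ) < d := by exact_mod_cast (by omega : 0 < d)
  have hq' : 1 + 1 / (d:ℝ) < q := by
    refine lt_of_le_of_lt (le_of_eq ?_) hq
    field_simp
  have hq0 : 0 < q := lt_trans (by positivity) hq
  obtain ⟨E, hE, h⟩ := slices hd K S hq'
  refine ⟨E ^ (1 / q), by positivity, ?_⟩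
  intro M γ hγ ho δ hδ hδ1 ι _ v β s τ hv hs hτ hb hsep
  have hsep' : ∀ i j, i ≠ j → δ ≤ ‖v i - v j‖ := fun i j hij => (hsep i j hij).trans (dir_sub_le _ _)
  rcases isEmpty_or_nonempty ι with he | hne
  · have : (fun y : Space d => ∑ i,
            (tube δ (dir (v i)) (WithLp.toLp 2 (β i + s i • v i, s i))).indicator (fun _ => (1 : ℝ)) y) =
          fun _ => 0 := by
      funext y
      simp
    rw [this, eLpNorm_zero']
    exact zero_le
  have hN1 : (1:ℝ) ≤ Fintype.card ι := by exact_mod_cast Fintype.card_pos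
  have hint := h M γ hγ ho δ hδ hδ1 ι v β s τ hv hs hτ hb hsep'
  set N : ℝ := (Fintype.card ι : ℝ) with hNd
  have hN : 0 < N := by linarith
  have hM0 : (0:ℝ) ≤ M := Nat.cast_nonneg M
  set f : Space d → ℝ := fun y => ∑ i,
    (tube δ (dir (v i)) (WithLp.toLp 2 (β i + s i • v i, s i))).indicator (fun _ => (1 : ℝ)) y with hf
  have hfm : Measurable f := by
    apply Finset.measurable_sum
    intro i _
    exact measurable_const.indicator (tube_closed _ _ _).measurableSet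
  have hmp := WithLp.volume_preserving_toLp (Vec d) ℝ
  have hS : ∫⁻ y : Space d, ‖f y‖ₑ ^ q = ∫⁻ t : ℝ, ∫⁻ x : Vec d, Fe δ v β s x t ^ q := by
    have hg : Measurable (fun y : Space d => ‖f y‖ₑ ^ q) := hfm.enorm.pow_const _
    rw [← hmp.lintegral_comp hg]
    have hg2 : Measurable (fun p : Vec d × ℝ => ‖f (WithLp.toLp 2 p)‖ₑ ^ q) := hg.comp hmp.measurable
    rw [Measure.volume_eq_prod, lintegral_prod_symm _ hg2.aemeasurable]
    refine lintegral_congr fun t => lintegral_congr fun x => ?_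
    rw [hf]
    simp only
    rw [enorm_sum]
  have hp0 : ENNReal.ofReal q ≠ 0 := by
    rw [ne_eq, ENNReal.ofReal_eq_zero, not_le]
    exact hq0
  rw [eLpNorm_eq_lintegral_rpow_enorm_toReal hp0 ENNReal.ofReal_ne_top, ENNReal.toReal_ofReal hq0.le, hS]
  calc (∫⁻ t : ℝ, ∫⁻ x : Vec d, Fe δ v β s x t ^ q) ^ (1 / q)
      ≤ (ENNReal.ofReal (E * ((1 + M : ℝ) ^ (q - 1) * (δ ^ d * N ^ (q - 1 / d))))) ^ (1 / q) :=
        ENNReal.rpow_le_rpow hint (by positivity)
    _ = ENNReal.ofReal ((E * ((1 + M : ℝ) ^ (q - 1) * (δ ^ d * N ^ (q - 1 / d)))) ^ (1 / q)) :=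
        ENNReal.ofReal_rpow_of_pos (by positivity)
    _ = _ := by
        congr 1
        rw [Real.mul_rpow hE.le (by positivity), Real.mul_rpow (by positivity) (by positivity),
          Real.mul_rpow (by positivity) (by positivity),
          ← Real.rpow_natCast δ d, ← Real.rpow_mul hδ.le, ← Real.rpow_mul hN.le,
          ← Real.rpow_mul (by positivity)]
        have f1 : (q - 1) * (1 / q) = 1 - 1 / q := by field_simp
        have f3 : (d : ℝ) * (1 / q) = d / q := by ring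
        have f4 : (q - 1 / d) * (1 / q) = 1 - 1 / (q * d) := by field_simp
        rw [f1, f3, f4]
        ring

/-- Polynomial curves of degree at most `M` have order at most `M`. -/
theorem order_poly (M : ℕ) (P : Fin d → Polynomial ℝ) (hP : ∀ j, (P j).natDegree ≤ M) :
    OrderLE M (fun s => WithLp.toLp 2 fun j => (P j).eval s) := by
  intro η
  set f : Polynomial ℝ := ∑ j, Polynomial.C (η j) * P j with hf
  have hfd : f.natDegree ≤ M := by
    apply Polynomial.natDegree_sum_le_of_forall_le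
    intro j _
    exact (Polynomial.natDegree_C_mul_le _ _).trans (hP j)
  have he : ∀ s, inner ℝ (WithLp.toLp 2 fun j => (P j).eval s : Vec d) η = f.eval s := by
    intro s
    rw [PiLp.inner_apply, hf, Polynomial.eval_finsetSum]
    apply Finset.sum_congr rfl
    intro j _
    simp [mul_comm]
  simp only [he]
  have key : ∀ c : ℝ, f - Polynomial.C c ≠ 0 → {s | s ∈ Icc (0:ℝ) 1 ∧ f.eval s = c}.encard ≤ M := by
    intro c hc
    have h1 : {s | s ∈ Icc (0:ℝ) 1 ∧ f.eval s = c} ⊆ ((f - Polynomial.C c).roots.toFinset : Set ℝ) := by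
      intro s hs
      rw [Finset.mem_coe, Multiset.mem_toFinset, Polynomial.mem_roots hc]
      simp [Polynomial.IsRoot, hs.2]
    refine (Set.encard_le_encard h1).trans ?_
    rw [Set.encard_coe_eq_coe_finsetCard]
    have h2 : (f - Polynomial.C c).roots.toFinset.card ≤ M := by
      refine (Multiset.toFinset_card_le _).trans ?_
      refine (Polynomial.card_roots' _).trans ?_
      rw [Polynomial.natDegree_sub_C]
      exact hfd
    exact_mod_cast h2
  by_cases h : ∃ c₀, f = Polynomial.C c₀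
  · obtain ⟨c₀, hc₀⟩ := h
    have h1 : ∀ᵐ c : ℝ, c ≠ c₀ := by
      rw [ae_iff]
      simp
    filter_upwards [h1] with c hc
    apply key
    rw [hc₀]
    intro h2
    rw [sub_eq_zero] at h2
    exact hc (Polynomial.C_injective h2).symm
  · filter_upwards with c
    apply key
    intro h2
    exact h ⟨c, sub_eq_zero.1 h2⟩

end Pool.Agent.U527.Crv
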