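import Pool.Agent.H153R4.Pl
import Pool.Agent.U527.Crv.Block

set_option autoImplicit false

/-! Fourier transforms of the integrals over lines. -/

open MeasureTheory Set ENNReal Real Complex FourierTransform

namespace Pool.Agent.U527.Crv

variable {V : Type*} [NormedAddCommGroup V] [InnerProductSpace ℝ V] [MeasurableSpace V]
  [BorelSpace V] [FiniteDimensional ℝ V]

/-- Bounded measurable functions of `(r, y)` with bounded support in `1/2 ≤ r ≤ 1`. -/
structure Nice (G : ℝ → V → ℂ) (B N : ℝ) : Prop where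
  meas : Measurable (Function.uncurry G)
  bd : ∀ r y, ‖G r y‖ ≤ B
  supp_r : ∀ r y, r ∉ Icc (1 / 2 : ℝ) 1 → G r y = 0
  supp_y : ∀ r y, N < ‖y‖ → G r y = 0

variable {G : ℝ → V → ℂ} {B N : ℝ}

theorem bdd_integrable {W : Type*} [MeasurableSpace W] {μ : Measure W} {f : W → ℂ}
    (hf : Measurable f) (hB : ∀ x, ‖f x‖ ≤ B) {S : Set W} (hS : μ S ≠ ∞) (hSm : MeasurableSet S)
    (h0 : ∀ x, x ∉ S → f x = 0) : Integrable f μ ∧ MemLp f 2 μ := by
  have e : f = S.indicator f := by
    funext x
    by_cases hx : x ∈ S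
    · rw [indicator_of_mem hx]
    · rw [indicator_of_notMem hx, h0 x hx]
  have hfin : IsFiniteMeasure (μ.restrict S) := ⟨by
    rw [Measure.restrict_apply_univ]; exact lt_top_iff_ne_top.2 hS⟩
  constructor
  · rw [e, integrable_indicator_iff hSm]
    exact Integrable.of_bound (μ := μ.restrict S) hf.aestronglyMeasurable B (by
      filter_upwards with x using hB x)
  · rw [e, memLp_indicator_iff_restrict hSm]
    exact MemLp.of_bound (μ := μ.restrict S) hf.aestronglyMeasurable B (by
      filter_upwards with x using hB x)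

theorem echar_cont : Continuous (fun x : ℝ => ((𝐞 x : Circle) : ℂ)) := by
  simp only [Real.fourierChar_apply]
  fun_prop

theorem Nice.int_y (h : Nice G B N) (r : ℝ) : Integrable (G r) ∧ MemLp (G r) 2 := by
  have hm : Measurable (G r) := h.meas.comp measurable_prodMk_left
  refine bdd_integrable hm (h.bd r) (S := Metric.closedBall (0 : V) N)
    measure_closedBall_lt_top.ne measurableSet_closedBall ?_
  intro y hy
  apply h.supp_y
  simpa using hy

/-- The Fourier transform in `y`. -/
noncomputable def hat (G : ℝ → V → ℂ) (r : ℝ) (ξ : V) : ℂ := 𝓕 (G r) ξ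

theorem hat_eq (r : ℝ) (ξ : V) : hat G r ξ = ∫ y, 𝐞 (-(inner ℝ y ξ)) • G r y := rfl

theorem hat_def (r : ℝ) (ξ : V) : hat G r ξ = 𝓕 (G r) ξ := rfl

attribute [irreducible] hat

theorem Nice.hat_meas (h : Nice G B N) : Measurable (Function.uncurry (hat G)) := by
  have h1 : StronglyMeasurable (fun p : (ℝ × V) × V => 𝐞 (-(inner ℝ p.2 p.1.2)) • G p.1.1 p.2) := by
    apply Measurable.stronglyMeasurable
    have a1 : Measurable (fun p : (ℝ × V) × V => ((𝐞 (-(inner ℝ p.2 p.1.2)) : Circle) : ℂ)) := by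
      apply echar_cont.measurable.comp
      apply Measurable.neg
      exact (continuous_inner.comp (continuous_snd.prodMk
        (continuous_snd.comp continuous_fst))).measurable
    have a2 : Measurable (fun p : (ℝ × V) × V => G p.1.1 p.2) := by
      exact h.meas.comp ((measurable_fst.comp measurable_fst).prodMk measurable_snd)
    have a3 : (fun p : (ℝ × V) × V => 𝐞 (-(inner ℝ p.2 p.1.2)) • G p.1.1 p.2) =
        fun p => ((𝐞 (-(inner ℝ p.2 p.1.2)) : Circle) : ℂ) * G p.1.1 p.2 := by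
      funext p
      rfl
    rw [a3]
    exact a1.mul a2
  have h2 := (h1.integral_prod_right' (ν := (volume : Measure V))).measurable
  have e : Function.uncurry (hat G) = fun p : ℝ × V => ∫ y, 𝐞 (-(inner ℝ y p.2)) • G p.1 y := by
    funext p
    exact hat_eq p.1 p.2
  rw [e]
  exact h2

theorem Nice.hat_bd (h : Nice G B N) (r : ℝ) (ξ : V) :
    ‖hat G r ξ‖ ≤ B * volume.real (Metric.closedBall (0 : V) N) := by
  have h0 : ‖hat G r ξ‖ ≤ ∫ y, ‖G r y‖ := by
    rw [hat_eq]
    refine (norm_integral_le_integral_norm _).trans (le_of_eq ?_)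
    apply integral_congr_ae
    filter_upwards with y
    exact Circle.norm_smul _ _
  refine h0.trans ?_
  have e : (fun y => ‖G r y‖) = (Metric.closedBall (0 : V) N).indicator (fun y => ‖G r y‖) := by
    funext y
    by_cases hy : y ∈ Metric.closedBall (0 : V) N
    · rw [indicator_of_mem hy]
    · rw [indicator_of_notMem hy, h.supp_y r y (by simpa using hy), norm_zero]
  rw [e, integral_indicator measurableSet_closedBall]
  have h1 : ‖∫ y in Metric.closedBall (0 : V) N, ‖G r y‖‖ ≤
      B * volume.real (Metric.closedBall (0 : V) N) := by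
    apply norm_setIntegral_le_of_norm_le_const measure_closedBall_lt_top
    intro y _
    rw [Real.norm_of_nonneg (norm_nonneg _)]
    exact h.bd r y
  exact (Real.le_norm_self _).trans h1

theorem Nice.hat_supp (h : Nice G B N) {r : ℝ} (hr : r ∉ Icc (1 / 2 : ℝ) 1) (ξ : V) :
    hat G r ξ = 0 := by
  rw [hat_eq]
  simp [h.supp_r r _ hr]

theorem Nice.hat_int (h : Nice G B N) (ξ : V) :
    Integrable (fun r => hat G r ξ) ∧ MemLp (fun r => hat G r ξ) 2 := by
  have hm : Measurable (fun r => hat G r ξ) := h.hat_meas.comp measurable_prodMk_right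
  refine bdd_integrable hm (fun r => h.hat_bd r ξ) (S := Icc (1 / 2) 1) (by simp) measurableSet_Icc ?_
  intro r hr
  exact h.hat_supp hr ξ

/-- The oscillatory integral. -/
noncomputable def BB (G : ℝ → V → ℂ) (ξ : V) (t : ℝ) : ℂ := 𝓕 (fun r => hat G r ξ) (-t)

theorem BB_eq (ξ : V) (t : ℝ) : BB G ξ t = ∫ r, 𝐞 (r * t) • hat G r ξ := by
  unfold BB
  rw [Real.fourier_real_eq]
  congr 1
  funext r
  congr 2
  ring

theorem BB_def (ξ : V) (t : ℝ) : BB G ξ t = 𝓕 (fun r => hat G r ξ) (-t) := rfl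

attribute [irreducible] BB

/-- Plancherel in `r`. -/
theorem Nice.BB_planch (h : Nice G B N) (ξ : V) :
    ∫⁻ t, ‖BB G ξ t‖ₑ ^ 2 = ∫⁻ r, ‖hat G r ξ‖ₑ ^ 2 := by
  rw [← Pool.Agent.H153R4.plancherel _ (h.hat_int ξ).1 (h.hat_int ξ).2]
  simp only [BB_def]
  exact (Measure.measurePreserving_neg (volume : Measure ℝ)).lintegral_comp_emb
    (Homeomorph.neg ℝ).measurableEmbedding (fun t => ‖𝓕 (fun r => hat G r ξ) t‖ₑ ^ 2)

/-- The function whose oscillatory integral is the derivative. -/
noncomputable def dG (G : ℝ → V → ℂ) (r : ℝ) (y : V) : ℂ := (2 * π * I * r) * G r y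

theorem Nice.dG (h : Nice G B N) (hB : 0 ≤ B) : Nice (dG G) (2 * π * B) N := by
  refine ⟨?_, ?_, ?_, ?_⟩
  · have : Function.uncurry (Crv.dG G) = fun p : ℝ × V => (2 * π * I * (p.1 : ℂ)) * G p.1 p.2 := rfl
    rw [this]
    exact (by fun_prop : Measurable fun p : ℝ × V => (2 * π * I * (p.1 : ℂ))).mul h.meas
  · intro r y
    by_cases hr : r ∈ Icc (1 / 2 : ℝ) 1
    · unfold Crv.dG
      have e : ‖(2 * π * I * (r:ℂ))‖ = 2 * π * |r| := by
        simp [abs_of_pos Real.pi_pos]
      rw [norm_mul, e]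
      have h1 : |r| ≤ 1 := by
        rw [abs_le]; constructor <;> linarith [hr.1, hr.2]
      have hπ := Real.pi_pos
      calc 2 * π * |r| * ‖G r y‖ ≤ 2 * π * 1 * B := by
            gcongr
            exact h.bd r y
        _ = 2 * π * B := by ring
    · unfold Crv.dG
      rw [h.supp_r r y hr, mul_zero, norm_zero]
      positivity
  · intro r y hr
    unfold Crv.dG
    rw [h.supp_r r y hr, mul_zero]
  · intro r y hr
    unfold Crv.dG
    rw [h.supp_y r y hr, mul_zero]

theorem hat_dG (r : ℝ) (ξ : V) : hat (dG G) r ξ = (2 * π * I * r) * hat G r ξ := by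
  rw [hat_eq, hat_eq, ← integral_const_mul]
  congr 1
  funext y
  unfold dG
  rw [Circle.smul_def, Circle.smul_def, smul_eq_mul, smul_eq_mul]
  ring

theorem Nice.BB_deriv (h : Nice G B N) (hB : 0 ≤ B) (ξ : V) (t : ℝ) :
    HasDerivAt (BB G ξ) (BB (Crv.dG G) ξ t) t := by
  have h1 : Integrable (fun x : ℝ => x • hat G x ξ) := by
    have h2 := ((h.dG hB).hat_int ξ).1
    have e : (fun x : ℝ => x • hat G x ξ) = fun x => (2 * π * I)⁻¹ * hat (Crv.dG G) x ξ := by
      funext x
      rw [hat_dG, real_smul]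
      have hπ : (2 * (π : ℂ) * I) ≠ 0 := by
        simp [Real.pi_ne_zero]
      field_simp
    rw [e]
    exact h2.const_mul _
  have h3 := Real.hasDerivAt_fourier (h.hat_int ξ).1 h1 (-t)
  have h4 := h3.scomp t (hasDerivAt_neg t)
  have e1 : BB G ξ = fun x => 𝓕 (fun r => hat G r ξ) (-x) := by
    funext x
    exact BB_def ξ x
  have e2 : BB (Crv.dG G) ξ t = -𝓕 (fun x : ℝ => (-2 * π * I * x) • hat G x ξ) (-t) := by
    rw [BB_def, Real.fourier_real_eq, Real.fourier_real_eq, ← integral_neg]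
    congr 1
    funext x
    rw [hat_dG, smul_eq_mul, ← smul_neg]
    congr 1
    ring
  rw [e1, e2]
  rw [neg_one_smul] at h4
  exact h4

theorem Nice.BB_cont (h : Nice G B N) (ξ : V) : Continuous (BB G ξ) := by
  have h1 : Continuous (𝓕 (fun r => hat G r ξ)) :=
    VectorFourier.fourierIntegral_continuous (L := innerₗ ℝ) Real.continuous_fourierChar
      continuous_inner (h.hat_int ξ).1
  have e1 : BB G ξ = fun x => 𝓕 (fun r => hat G r ξ) (-x) := by
    funext x
    exact BB_def ξ x
  rw [e1]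
  exact h1.comp continuous_neg

/-- The size of the oscillatory integral and its derivative. -/
theorem Nice.en_int (h : Nice G B N) (hB : 0 ≤ B) (ξ : V) :
    ∫⁻ t, en (BB G ξ) (BB (Crv.dG G) ξ) t ≤ 41 * ∫⁻ r, ‖hat G r ξ‖ₑ ^ 2 := by
  unfold en
  rw [lintegral_add_left ((h.BB_cont ξ).measurable.enorm.pow_const _), h.BB_planch,
    (h.dG hB).BB_planch]
  have h1 : ∀ r, ‖hat (Crv.dG G) r ξ‖ₑ ^ 2 ≤ 40 * ‖hat G r ξ‖ₑ ^ 2 := by
    intro r
    by_cases hr : r ∈ Icc (1 / 2 : ℝ) 1
    · rw [hat_dG, enorm_mul, mul_pow]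
      gcongr
      rw [← ofReal_norm, ← ENNReal.ofReal_pow (norm_nonneg _)]
      have e : ‖(2 * π * I * (r:ℂ))‖ = 2 * π * |r| := by
        simp [abs_of_pos Real.pi_pos]
      rw [e, ← ENNReal.ofReal_ofNat 40]
      apply ENNReal.ofReal_le_ofReal
      have h1 : |r| ≤ 1 := by
        rw [abs_le]; constructor <;> linarith [hr.1, hr.2]
      have hπ := Real.pi_pos
      have hπ2 : π ^ 2 ≤ 10 := by
        have := Real.pi_lt_d2
        nlinarith
      calc (2 * π * |r|) ^ 2 = 4 * π ^ 2 * |r| ^ 2 := by ring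
        _ ≤ 4 * 10 * 1 ^ 2 := by gcongr
        _ = 40 := by norm_num
    · rw [(h.dG hB).hat_supp hr]
      simp
  calc _ ≤ (∫⁻ r, ‖hat G r ξ‖ₑ ^ 2) + ∫⁻ r, 40 * ‖hat G r ξ‖ₑ ^ 2 := by
        gcongr with r
        exact h1 r
    _ = _ := by
        rw [lintegral_const_mul' _ _ (by norm_num)]
        ring

/-- The integral over the lines through `b`. -/
noncomputable def Fl (G : ℝ → V → ℂ) (b v : V) : ℂ := ∫ r, G r (v + r • b)

theorem Nice.line_int (h : Nice G B N) (b v : V) : Integrable (fun r => G r (v + r • b)) := by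
  have hm : Measurable (fun r => G r (v + r • b)) := by
    have h1 : Measurable (fun r : ℝ => (r, v + r • b)) := by fun_prop
    exact h.meas.comp h1
  refine (bdd_integrable hm (fun r => h.bd r _) (S := Icc (1 / 2) 1) (by simp) measurableSet_Icc ?_).1
  intro r hr
  exact h.supp_r r _ hr

theorem Nice.Fl_meas (h : Nice G B N) (b : V) : Measurable (Fl G b) := by
  have h1 : StronglyMeasurable (fun p : V × ℝ => G p.2 (p.1 + p.2 • b)) := by
    apply Measurable.stronglyMeasurable
    have h1 : Measurable (fun p : V × ℝ => (p.2, p.1 + p.2 • b)) := by fun_prop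
    exact h.meas.comp h1
  exact (h1.integral_prod_right' (ν := (volume : Measure ℝ))).measurable

theorem Nice.Fl_bd (h : Nice G B N) (hB : 0 ≤ B) (b v : V) : ‖Fl G b v‖ ≤ B := by
  unfold Fl
  have e : (fun r => G r (v + r • b)) = (Icc (1 / 2 : ℝ) 1).indicator (fun r => G r (v + r • b)) := by
    funext r
    by_cases hr : r ∈ Icc (1 / 2 : ℝ) 1
    · rw [indicator_of_mem hr]
    · rw [indicator_of_notMem hr, h.supp_r r _ hr]
  rw [e, integral_indicator measurableSet_Icc]
  have h1 : ‖∫ r in Icc (1 / 2 : ℝ) 1, G r (v + r • b)‖ ≤ B * volume.real (Icc (1 / 2 : ℝ) 1) := by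
    apply norm_setIntegral_le_of_norm_le_const (by simp)
    intro y _
    exact h.bd _ _
  refine h1.trans ?_
  rw [Real.volume_real_Icc_of_le (by norm_num)]
  nlinarith

theorem Nice.Fl_supp (h : Nice G B N) (b v : V) (hv : N + ‖b‖ < ‖v‖) : Fl G b v = 0 := by
  unfold Fl
  have : ∀ r, G r (v + r • b) = 0 := by
    intro r
    by_cases hr : r ∈ Icc (1 / 2 : ℝ) 1
    · apply h.supp_y
      have h1 : ‖v‖ ≤ ‖v + r • b‖ + ‖r • b‖ := by
        calc ‖v‖ = ‖(v + r • b) - r • b‖ := by congr 1; abel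
          _ ≤ _ := norm_sub_le _ _
      have h2 : ‖r • b‖ ≤ ‖b‖ := by
        rw [norm_smul, Real.norm_eq_abs]
        have : |r| ≤ 1 := by rw [abs_le]; constructor <;> linarith [hr.1, hr.2]
        nlinarith [norm_nonneg b]
      linarith
    · exact h.supp_r r _ hr
  simp [this]

theorem Nice.Fl_int (h : Nice G B N) (hB : 0 ≤ B) (b : V) :
    Integrable (Fl G b) ∧ MemLp (Fl G b) 2 := by
  refine bdd_integrable (h.Fl_meas b) (h.Fl_bd hB b) (S := Metric.closedBall (0 : V) (N + ‖b‖))
    measure_closedBall_lt_top.ne measurableSet_closedBall ?_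
  intro y hy
  apply h.Fl_supp
  simpa using hy

theorem Nice.four_Fl (h : Nice G B N) (b η : V) : 𝓕 (Fl G b) η = BB G η (inner ℝ b η) := by
  have hm : Measurable (fun p : V × ℝ => 𝐞 (-(inner ℝ p.1 η)) • G p.2 (p.1 + p.2 • b)) := by
    have a1 : Measurable (fun p : V × ℝ => ((𝐞 (-(inner ℝ p.1 η)) : Circle) : ℂ)) := by
      apply echar_cont.measurable.comp
      fun_prop
    have a2 : Measurable (fun p : V × ℝ => G p.2 (p.1 + p.2 • b)) := by
      have h1 : Measurable (fun p : V × ℝ => (p.2, p.1 + p.2 • b)) := by fun_prop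
      exact h.meas.comp h1
    exact a1.mul a2
  have hint : Integrable (fun p : V × ℝ => 𝐞 (-(inner ℝ p.1 η)) • G p.2 (p.1 + p.2 • b))
      ((volume : Measure V).prod (volume : Measure ℝ)) := by
    refine (bdd_integrable (μ := (volume : Measure V).prod (volume : Measure ℝ)) (B := B)
      (S := Metric.closedBall (0 : V) (N + ‖b‖) ×ˢ Icc (1 / 2) 1) hm ?_ ?_ ?_ ?_).1
    · intro p
      rw [Circle.norm_smul]
      exact h.bd _ _
    · rw [Measure.prod_prod]
      exact ENNReal.mul_ne_top measure_closedBall_lt_top.ne (by simp)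
    · exact measurableSet_closedBall.prod measurableSet_Icc
    · rintro ⟨v, r⟩ hp
      simp only [mem_prod, not_and_or] at hp
      have : G r (v + r • b) = 0 := by
        by_cases hr : r ∈ Icc (1 / 2 : ℝ) 1
        · rcases hp with hp | hp
          · apply h.supp_y
            rw [Metric.mem_closedBall, dist_zero_right, not_le] at hp
            have h1 : ‖v‖ ≤ ‖v + r • b‖ + ‖r • b‖ := by
              calc ‖v‖ = ‖(v + r • b) - r • b‖ := by congr 1; abel
                _ ≤ _ := norm_sub_le _ _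
            have h2 : ‖r • b‖ ≤ ‖b‖ := by
              rw [norm_smul, Real.norm_eq_abs]
              have : |r| ≤ 1 := by rw [abs_le]; constructor <;> linarith [hr.1, hr.2]
              nlinarith [norm_nonneg b]
            linarith
          · exact absurd hr hp
        · exact h.supp_r r _ hr
      simp only [this, smul_zero]
  rw [Real.fourier_eq, BB_eq]
  calc ∫ v, 𝐞 (-(inner ℝ v η)) • Fl G b v
      = ∫ v, ∫ r, 𝐞 (-(inner ℝ v η)) • G r (v + r • b) := by
        congr 1
        funext v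
        unfold Fl
        simp only [Circle.smul_def, smul_eq_mul]
        exact (integral_const_mul _ _).symm
    _ = ∫ r, ∫ v, 𝐞 (-(inner ℝ v η)) • G r (v + r • b) := integral_integral_swap hint
    _ = ∫ r, 𝐞 (r * inner ℝ b η) • hat G r η := by
        congr 1
        funext r
        have h1 := integral_add_right_eq_self (μ := (volume : Measure V))
          (fun v : V => 𝐞 (-(inner ℝ (v - r • b) η)) • G r v) (r • b)
        simp only [add_sub_cancel_right] at h1
        have h2 : 𝐞 (r * inner ℝ b η) • ∫ y, 𝐞 (-(inner ℝ y η)) • G r y =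
            ∫ y, 𝐞 (r * inner ℝ b η) • 𝐞 (-(inner ℝ y η)) • G r y := by
          simp only [Circle.smul_def, smul_eq_mul]
          exact (integral_const_mul _ _).symm
        rw [h1, hat_eq, h2]
        congr 1
        funext v
        rw [smul_smul, ← AddChar.map_add_eq_mul]
        congr 2
        rw [inner_sub_left, inner_smul_left]
        simp only [conj_trivial]
        ring

/-- Combinations of the integrals over lines. -/
theorem Nice.comb (h : Nice G B N) (hB : 0 ≤ B) (K : ℕ) (c : ℕ → ℝ) (b : ℕ → V) :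
    ∫⁻ v, ‖∑ k ∈ Finset.range K, ((c k : ℝ) : ℂ) * Fl G (b k) v‖ₑ ^ 2 =
      ∫⁻ η, ‖∑ k ∈ Finset.range K, ((c k : ℝ) : ℂ) * BB G η (inner ℝ (b k) η)‖ₑ ^ 2 := by
  have h1 : ∀ k, Integrable (fun v => ((c k : ℝ) : ℂ) * Fl G (b k) v) := fun k =>
    (h.Fl_int hB (b k)).1.const_mul _
  have h2 : ∀ k, MemLp (fun v => ((c k : ℝ) : ℂ) * Fl G (b k) v) 2 := fun k =>
    (h.Fl_int hB (b k)).2.const_mul _
  have h3 : Integrable (fun v => ∑ k ∈ Finset.range K, ((c k : ℝ) : ℂ) * Fl G (b k) v) :=
    integrable_finsetSum _ fun k _ => h1 k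
  have h4 : MemLp (fun v => ∑ k ∈ Finset.range K, ((c k : ℝ) : ℂ) * Fl G (b k) v) 2 :=
    memLp_finsetSum _ fun k _ => h2 k
  rw [← Pool.Agent.H153R4.plancherel _ h3 h4]
  apply lintegral_congr
  intro η
  congr 2
  rw [Real.fourier_eq]
  have e1 : ∀ v, 𝐞 (-(inner ℝ v η)) • ∑ k ∈ Finset.range K, ((c k : ℝ) : ℂ) * Fl G (b k) v =
      ∑ k ∈ Finset.range K, ((c k : ℝ) : ℂ) * (𝐞 (-(inner ℝ v η)) • Fl G (b k) v) := by
    intro v
    rw [Finset.smul_sum]
    apply Finset.sum_congr rfl
    intro k _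
    rw [Circle.smul_def, Circle.smul_def, smul_eq_mul, smul_eq_mul]
    ring
  simp only [e1]
  rw [integral_finsetSum]
  · apply Finset.sum_congr rfl
    intro k _
    rw [integral_const_mul, ← h.four_Fl, Real.fourier_eq]
  · intro k _
    apply Integrable.const_mul
    exact (Real.fourierIntegral_convergent_iff η).2 (h.Fl_int hB (b k)).1

/-- The square sum over the blocks of one level, integrated over all slopes. -/
theorem Nice.main (h : Nice G B N) (hB : 0 ≤ B) {M K : ℕ} {b : ℕ → V}
    (hb : ∀ η, CrossAt M K (fun k => inner ℝ (b k) η)) (i J : ℕ) :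
    ∑ j ∈ Finset.range J, ∫⁻ v, ‖∑ k ∈ Finset.range K, ((Dw i j k : ℝ) : ℂ) * Fl G (b k) v‖ₑ ^ 2 ≤
      2624 * (M + 1) * ∫⁻ r, ∫⁻ y, ‖G r y‖ₑ ^ 2 := by
  have hm : ∀ j, Measurable fun η => ‖∑ k ∈ Finset.range K, ((Dw i j k : ℝ) : ℂ) *
      BB G η (inner ℝ (b k) η)‖ₑ ^ 2 := by
    intro j
    apply Measurable.pow_const
    apply Measurable.enorm
    apply Finset.measurable_sum
    intro k _
    apply Measurable.const_mul
    have : (fun η => BB G η (inner ℝ (b k) η)) = 𝓕 (Fl G (b k)) := by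
      funext η
      rw [h.four_Fl]
    rw [this]
    have h1 : Continuous (𝓕 (Fl G (b k))) :=
      VectorFourier.fourierIntegral_continuous (L := innerₗ V) Real.continuous_fourierChar
        continuous_inner (h.Fl_int hB (b k)).1
    exact h1.measurable
  simp only [h.comb hB]
  rw [← lintegral_finsetSum _ (fun j _ => hm j)]
  calc _ ≤ ∫⁻ η, 2624 * (M + 1) * ∫⁻ r, ‖hat G r η‖ₑ ^ 2 := by
        apply lintegral_mono
        intro η
        refine (blocks (hb η) (fun x => h.BB_deriv hB η x) ((h.dG hB).BB_cont η) i J).trans ?_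
        calc _ ≤ 64 * ((M : ℝ≥0∞) + 1) * (41 * ∫⁻ r, ‖hat G r η‖ₑ ^ 2) := by
              gcongr
              exact h.en_int hB η
          _ = _ := by ring
    _ = 2624 * (M + 1) * ∫⁻ η, ∫⁻ r, ‖hat G r η‖ₑ ^ 2 := by
        rw [lintegral_const_mul' _ _ (by finiteness)]
    _ = 2624 * (M + 1) * ∫⁻ r, ∫⁻ η, ‖hat G r η‖ₑ ^ 2 := by
        congr 1
        exact lintegral_lintegral_swap (f := fun (η : V) (r : ℝ) => ‖hat G r η‖ₑ ^ 2)
          (((h.hat_meas.comp measurable_swap).enorm.pow_const _).aemeasurable)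
    _ = _ := by
        congr 1
        apply lintegral_congr
        intro r
        simp only [hat_def]
        exact Pool.Agent.H153R4.plancherel _ (h.int_y r).1 (h.int_y r).2

end Pool.Agent.U527.Crv
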