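import Pool.Agent.U527.Crv.Sum
import Pool.Agent.H810R3.Tub.Push

set_option autoImplicit false

/-! Curves of bounded order, samples, and the change of variables. -/

open MeasureTheory Set ENNReal Real Metric

namespace Pool.Agent.U527.Crv

open Pool.Agent.H810R3.Tub

variable {d : ℕ}

/-- Almost every hyperplane orthogonal to any given direction meets the curve at most `M` times. -/
def OrderLE (M : ℕ) (γ : ℝ → Vec d) : Prop :=
  ∀ η : Vec d, ∀ᵐ c : ℝ, {s | s ∈ Icc (0:ℝ) 1 ∧ inner ℝ (γ s) η = c}.encard ≤ M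

theorem cross_of_order {M : ℕ} {γ : ℝ → Vec d} (hγ : ContinuousOn γ (Icc 0 1)) (h : OrderLE M γ)
    {K : ℕ} {s : ℕ → ℝ} (hs : ∀ k < K, s k ∈ Icc (0:ℝ) 1)
    (hmono : ∀ k < K, ∀ k' < K, k < k' → s k < s k') (η : Vec d) :
    CrossAt M K (fun k => inner ℝ (γ (s k)) η) := by
  classical
  filter_upwards [h η] with u hu T l r hr hlr hT
  have hmono' : ∀ k < K, ∀ k' < K, k ≤ k' → s k ≤ s k' := by
    intro k hk k' hk' hkk
    rcases hkk.eq_or_lt with h | h
    · rw [h]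
    · exact (hmono k hk k' hk' h).le
  have key : ∀ m ∈ T, ∃ σ, s (l m) ≤ σ ∧ σ ≤ s (r m) ∧ σ ∈ Icc (0:ℝ) 1 ∧ inner ℝ (γ σ) η = u := by
    intro m hm
    obtain ⟨k, k', h1, h2, h3, h4, h5, h6⟩ := hT m hm
    have hrK := hr m hm
    have hk := hs k (by omega)
    have hk' := hs k' (by omega)
    have hsub : uIcc (s k) (s k') ⊆ Icc (0:ℝ) 1 := by
      intro x hx
      rw [mem_uIcc] at hx
      rcases hx with hx | hx
      · exact ⟨hk.1.trans hx.1, hx.2.trans hk'.2⟩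
      · exact ⟨hk'.1.trans hx.1, hx.2.trans hk.2⟩
    have hcont : ContinuousOn (fun x => inner ℝ (γ x) η) (uIcc (s k) (s k')) :=
      (hγ.mono hsub).inner continuousOn_const
    have h7 := intermediate_value_uIcc hcont
    obtain ⟨σ, hσ1, hσ2⟩ := h7 (mem_uIcc_of_le h5 h6)
    refine ⟨σ, ?_, ?_, hsub hσ1, hσ2⟩
    · rw [mem_uIcc] at hσ1
      have a1 := hmono' (l m) (by omega) k (by omega) h1
      have a2 := hmono' (l m) (by omega) k' (by omega) h3
      rcases hσ1 with h | h <;> linarith [h.1]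
    · rw [mem_uIcc] at hσ1
      have a1 := hmono' k (by omega) (r m) (by omega) h2
      have a2 := hmono' k' (by omega) (r m) (by omega) h4
      rcases hσ1 with h | h <;> linarith [h.2]
  choose! σ hσ1 hσ2 hσ3 hσ4 using key
  have hinj : Set.InjOn σ T := by
    have hlt : ∀ m ∈ T, ∀ m' ∈ T, m < m' → σ m < σ m' := by
      intro m hm m' hm' hmm
      have h1 := hlr m hm m' hm' hmm
      obtain ⟨k, k', a1, a2, a3, a4, a5, a6⟩ := hT m' hm'
      have hrK := hr m hm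
      have hrK' := hr m' hm'
      have h2 := hmono (r m) hrK (l m') (by omega) h1
      linarith [hσ2 m hm, hσ1 m' hm']
    intro m hm m' hm' he
    rcases lt_trichotomy m m' with h | h | h
    · have := hlt m hm m' hm' h
      linarith
    · exact h
    · have := hlt m' hm' m hm h
      linarith
  have h8 : ((T.image σ : Finset ℝ) : Set ℝ) ⊆ {s | s ∈ Icc (0:ℝ) 1 ∧ inner ℝ (γ s) η = u} := by
    intro x hx
    rw [Finset.coe_image] at hx
    obtain ⟨m, hm, rfl⟩ := hx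
    exact ⟨hσ3 m hm, hσ4 m hm⟩
  have h9 := (Set.encard_le_encard h8).trans hu
  rw [Set.encard_coe_eq_coe_finsetCard, Finset.card_image_of_injOn hinj] at h9
  exact_mod_cast h9

/-- The crossing property of a dilated sequence. -/
theorem cross_smul {M K : ℕ} {a : ℕ → Vec d} (h : ∀ η, CrossAt M K (fun k => inner ℝ (a k) η))
    (c : ℝ) (η : Vec d) : CrossAt M K (fun k => inner ℝ (c • a k) η) := by
  have h1 := h (c • η)
  have e : (fun k => inner ℝ (c • a k) η) = fun k => inner ℝ (a k) (c • η) := by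
    funext k
    rw [inner_smul_left, inner_smul_right]
    rfl
  rw [e]
  exact h1

/-- A maximal separated set of samples. -/
theorem sample (γ : ℝ → Vec d) (P : Finset ℝ) (δ : ℝ) :
    ∃ S ⊆ P, (∀ s ∈ S, ∀ s' ∈ S, s ≠ s' → δ ≤ ‖γ s - γ s'‖) ∧
      ∀ τ ∈ P, ∃ s ∈ S, ‖γ τ - γ s‖ ≤ max δ 0 := by
  classical
  induction P using Finset.induction_on with
  | empty => exact ⟨∅, le_rfl, by simp, by simp⟩
  | insert τ P _ ih =>
    obtain ⟨S, hSP, hsep, hcov⟩ := ih
    by_cases h : ∃ s ∈ S, ‖γ τ - γ s‖ ≤ max δ 0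
    · refine ⟨S, hSP.trans (Finset.subset_insert _ _), hsep, ?_⟩
      intro x hx
      rw [Finset.mem_insert] at hx
      rcases hx with rfl | hx
      · exact h
      · exact hcov x hx
    · push Not at h
      refine ⟨insert τ S, Finset.insert_subset_insert _ hSP, ?_, ?_⟩
      · intro s hs s' hs' hne
        rw [Finset.mem_insert] at hs hs'
        rcases hs with rfl | hs
        · rcases hs' with rfl | hs'
          · exact absurd rfl hne
          · exact (le_max_left _ _).trans (h s' hs').le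
        · rcases hs' with rfl | hs'
          · rw [norm_sub_rev]
            exact (le_max_left _ _).trans (h s hs).le
          · exact hsep s hs s' hs' hne
      · intro x hx
        rw [Finset.mem_insert] at hx
        rcases hx with rfl | hx
        · exact ⟨x, Finset.mem_insert_self _ _, by simp⟩
        · obtain ⟨s, hs, h1⟩ := hcov x hx
          exact ⟨s, Finset.mem_insert_of_mem hs, h1⟩

/-- The samples in increasing order. -/
theorem samples {ι : Type*} [Fintype ι] {M : ℕ} {γ : ℝ → Vec d} (hγ : ContinuousOn γ (Icc 0 1))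
    (h : OrderLE M γ) (τ : ι → ℝ) (hτ : ∀ t, τ t ∈ Icc (0:ℝ) 1) {δ : ℝ} (hδ : 0 < δ) :
    ∃ (K : ℕ) (a : ℕ → Vec d) (κ : ι → ℕ), (∀ k < K, ∀ k' < K, k ≠ k' → δ ≤ ‖a k - a k'‖) ∧
      (∀ η, CrossAt M K (fun k => inner ℝ (a k) η)) ∧
      ∀ t, κ t < K ∧ ‖γ (τ t) - a (κ t)‖ ≤ δ := by
  classical
  obtain ⟨S, hSP, hsep, hcov⟩ := sample γ (Finset.univ.image τ) δ
  set f := S.orderEmbOfFin rfl with hf
  set s : ℕ → ℝ := fun k => if h : k < S.card then f ⟨k, h⟩ else 0 with hs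
  have hsk : ∀ k (h : k < S.card), s k = f ⟨k, h⟩ := by
    intro k h
    rw [hs]
    simp only
    rw [dif_pos h]
  have hmemS : ∀ k < S.card, s k ∈ S := by
    intro k hk
    rw [hsk k hk]
    exact Finset.orderEmbOfFin_mem _ _ _
  have hs01 : ∀ k < S.card, s k ∈ Icc (0:ℝ) 1 := by
    intro k hk
    have h1 := hSP (hmemS k hk)
    rw [Finset.mem_image] at h1
    obtain ⟨t, _, ht⟩ := h1
    rw [← ht]
    exact hτ t
  have hmono : ∀ k < S.card, ∀ k' < S.card, k < k' → s k < s k' := by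
    intro k hk k' hk' hkk
    rw [hsk k hk, hsk k' hk']
    exact f.strictMono (by rwa [Fin.mk_lt_mk])
  have hex : ∀ t, ∃ k, k < S.card ∧ ‖γ (τ t) - γ (s k)‖ ≤ δ := by
    intro t
    obtain ⟨x, hx, h1⟩ := hcov (τ t) (Finset.mem_image_of_mem _ (Finset.mem_univ t))
    have h2 : x ∈ Set.range f := by
      rw [hf, Finset.range_orderEmbOfFin]
      exact hx
    obtain ⟨⟨k, hk⟩, rfl⟩ := h2
    refine ⟨k, hk, ?_⟩
    rw [hsk k hk]
    rwa [max_eq_left hδ.le] at h1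
  choose κ hκ1 hκ2 using hex
  refine ⟨S.card, fun k => γ (s k), κ, ?_, ?_, fun t => ⟨hκ1 t, hκ2 t⟩⟩
  · intro k hk k' hk' hkk
    apply hsep _ (hmemS k hk) _ (hmemS k' hk')
    rcases lt_or_gt_of_ne hkk with h1 | h1
    · exact (hmono k hk k' hk' h1).ne
    · exact (hmono k' hk' k hk h1).ne'
  · exact cross_of_order hγ h hs01 hmono

/-- The substitution `z = ρ / Z`. -/
theorem subst (Φ : ℝ → ℝ≥0∞) {ρ : ℝ} (hρ : 0 < ρ) :
    ∫⁻ z in Icc ρ (2 * ρ), Φ (ρ / z) ≤ ENNReal.ofReal (4 * ρ) * ∫⁻ Z in Icc (1 / 2 : ℝ) 1, Φ Z := by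
  have hder : ∀ x ∈ Icc (1 / 2 : ℝ) 1, HasDerivWithinAt (fun Z => ρ / Z) (-ρ / x ^ 2) (Icc (1 / 2) 1) x := by
    intro x hx
    have hx0 : x ≠ 0 := by
      have := hx.1
      intro h
      rw [h] at this
      norm_num at this
    have h1 := (hasDerivAt_inv hx0).const_mul ρ
    have e : (fun Z : ℝ => ρ / Z) = fun Z => ρ * Z⁻¹ := by
      funext Z
      rw [div_eq_mul_inv]
    rw [e]
    refine (h1.congr_deriv ?_).hasDerivWithinAt
    field_simp
  have hinj : InjOn (fun Z => ρ / Z) (Icc (1 / 2 : ℝ) 1) := by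
    intro x hx y hy hxy
    have hx0 : 0 < x := by linarith [hx.1]
    have hy0 : 0 < y := by linarith [hy.1]
    simp only at hxy
    rw [div_eq_div_iff hx0.ne' hy0.ne'] at hxy
    have := mul_left_cancel₀ hρ.ne' hxy
    exact this.symm
  have himg : Icc ρ (2 * ρ) ⊆ (fun Z => ρ / Z) '' Icc (1 / 2 : ℝ) 1 := by
    intro z hz
    have hz0 : 0 < z := by linarith [hz.1]
    refine ⟨ρ / z, ⟨?_, ?_⟩, ?_⟩
    · rw [le_div_iff₀ hz0]
      linarith [hz.2]
    · rw [div_le_one hz0]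
      exact hz.1
    · simp only
      field_simp
  calc _ ≤ ∫⁻ z in (fun Z => ρ / Z) '' Icc (1 / 2 : ℝ) 1, Φ (ρ / z) := lintegral_mono_set himg
    _ = ∫⁻ x in Icc (1 / 2 : ℝ) 1, ENNReal.ofReal |(-ρ / x ^ 2)| * Φ (ρ / (ρ / x)) :=
        lintegral_image_eq_lintegral_abs_deriv_mul measurableSet_Icc hder hinj (fun z => Φ (ρ / z))
    _ ≤ ∫⁻ x in Icc (1 / 2 : ℝ) 1, ENNReal.ofReal (4 * ρ) * Φ x := by
        apply setLIntegral_mono' measurableSet_Icc
        intro x hx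
        have hx0 : 0 < x := by linarith [hx.1]
        have e : ρ / (ρ / x) = x := by field_simp
        rw [e]
        gcongr
        rw [abs_div, abs_neg, abs_of_pos hρ, abs_of_pos (by positivity : 0 < x ^ 2),
          div_le_iff₀ (by positivity)]
        nlinarith [hx.1, mul_pos hρ hx0]
    _ = _ := lintegral_const_mul' _ _ ENNReal.ofReal_ne_top

/-- The counting function of the slabs. -/
noncomputable def Uf {ι : Type*} [Fintype ι] (δ : ℝ) (v β : ι → Vec d) (x : Vec d) (z : ℝ) : ℝ≥0∞ :=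
  ∑ t, ENNReal.ofReal (chi (3 * δ) (x - β t - z • v t))

/-- One region of heights. -/
theorem region {ι : Type*} [Fintype ι] (v β : ι → Vec d) (κ : ι → ℕ) (a : ℕ → Vec d) {K : ℕ}
    {δ ρ k₀ q : ℝ} (hδ : 0 < δ) (hρ : 0 < ρ) (hq : 0 ≤ q)
    (hβ : ∀ t, κ t < K ∧ ‖β t - a (κ t)‖ ≤ (k₀ - 3) * δ) :
    ∫⁻ z in Icc ρ (2 * ρ), ∫⁻ x, (Uf δ v β x z) ^ q ≤
      ENNReal.ofReal ((2 * ρ) ^ d * (4 * ρ)) *
        ∫⁻ p in Wd d, ‖Pf v κ (fun k => ρ⁻¹ • a k) K (k₀ * δ / ρ) 0 p‖ₑ ^ q := by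
  classical
  set P : ℝ × Vec d → ℝ := Pf v κ (fun k => ρ⁻¹ • a k) K (k₀ * δ / ρ) 0 with hP
  have hPm : Measurable P := Pf_meas _ _ _ _ _ _
  have hPe : ∀ p, ∑ t, chi (k₀ * δ / ρ) (p.2 - p.1 • (ρ⁻¹ • a (κ t)) - v t) ≤ P p := by
    intro p
    rw [hP]
    unfold Pf cylS
    apply Finset.sum_le_sum
    intro t _
    refine le_trans (le_of_eq ?_) (Finset.single_le_sum (f := fun k => Aw 0 (κ t / 2 ^ 0) k *
      chi (k₀ * δ / ρ) (p.2 - p.1 • (ρ⁻¹ • a k) - v t)) (fun k _ => mul_nonneg (Aw_nonneg _ _ _) (chi_nonneg _ _))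
      (Finset.mem_range.2 (hβ t).1))
    simp [Aw]
  have hpt : ∀ z ∈ Icc ρ (2 * ρ), ∀ X : Vec d, Uf δ v β (z • X) z ≤ ‖P (ρ / z, X)‖ₑ := by
    intro z hz X
    have hz0 : 0 < z := by linarith [hz.1]
    have h0 : 0 ≤ P (ρ / z, X) := Pf_nonneg _ _ _ _ _ _ _
    rw [Real.enorm_of_nonneg h0]
    unfold Uf
    rw [← ENNReal.ofReal_sum_of_nonneg (fun t _ => chi_nonneg _ _)]
    apply ENNReal.ofReal_le_ofReal
    refine le_trans (Finset.sum_le_sum fun t _ => ?_) (hPe _)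
    by_cases h : ‖z • X - β t - z • v t‖ < 3 * δ
    · rw [chi_one h, chi_one]
      simp only
      have e1 : X - (ρ / z) • (ρ⁻¹ • a (κ t)) - v t =
          z⁻¹ • ((z • X - β t - z • v t) + (β t - a (κ t))) := by
        rw [smul_smul]
        have e2 : ρ / z * ρ⁻¹ = z⁻¹ := by field_simp
        rw [e2, smul_add, smul_sub, smul_sub, smul_sub, smul_smul, smul_smul, inv_mul_cancel₀ hz0.ne',
          one_smul, one_smul]
        abel
      rw [e1, norm_smul, norm_inv, Real.norm_eq_abs, abs_of_pos hz0]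
      have h1 : ‖(z • X - β t - z • v t) + (β t - a (κ t))‖ < k₀ * δ := by
        calc _ ≤ ‖z • X - β t - z • v t‖ + ‖β t - a (κ t)‖ := norm_add_le _ _
          _ < 3 * δ + (k₀ - 3) * δ := add_lt_add_of_lt_of_le h (hβ t).2
          _ = k₀ * δ := by ring
      have h2 : 0 < k₀ * δ := lt_of_le_of_lt (norm_nonneg _) h1
      rw [inv_mul_lt_iff₀ hz0]
      calc _ < k₀ * δ := h1
        _ = ρ * (k₀ * δ / ρ) := by field_simp
        _ ≤ z * (k₀ * δ / ρ) := by
            have := hz.1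
            gcongr
    · rw [chi_zero (not_lt.1 h)]
      exact chi_nonneg _ _
  set Φ : ℝ → ℝ≥0∞ := fun Z => ∫⁻ X, ‖P (Z, X)‖ₑ ^ q with hΦ
  have h1 : ∀ z ∈ Icc ρ (2 * ρ), ∫⁻ x, (Uf δ v β x z) ^ q ≤ ENNReal.ofReal ((2 * ρ) ^ d) * Φ (ρ / z) := by
    intro z hz
    have hz0 : 0 < z := by linarith [hz.1]
    have h2 := lint_smul (volume : Measure (Vec d)) hz0.ne' (fun x => (Uf δ v β x z) ^ q)
    rw [finrank_euclideanSpace_fin] at h2
    have h3 : ∫⁻ x, (Uf δ v β x z) ^ q = ENNReal.ofReal (z ^ d) * ∫⁻ x, (Uf δ v β (z • x) z) ^ q := by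
      rw [h2, ← mul_assoc, ← ENNReal.ofReal_mul (by positivity), abs_of_pos (by positivity),
        mul_inv_cancel₀ (by positivity), ENNReal.ofReal_one, one_mul]
    rw [h3]
    gcongr
    · exact hz.2
    · exact lintegral_mono fun X => ENNReal.rpow_le_rpow (hpt z hz X) hq
  calc _ ≤ ∫⁻ z in Icc ρ (2 * ρ), ENNReal.ofReal ((2 * ρ) ^ d) * Φ (ρ / z) :=
        setLIntegral_mono' measurableSet_Icc h1
    _ = ENNReal.ofReal ((2 * ρ) ^ d) * ∫⁻ z in Icc ρ (2 * ρ), Φ (ρ / z) :=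
        lintegral_const_mul' _ _ ENNReal.ofReal_ne_top
    _ ≤ ENNReal.ofReal ((2 * ρ) ^ d) * (ENNReal.ofReal (4 * ρ) * ∫⁻ Z in Icc (1 / 2 : ℝ) 1, Φ Z) := by
        gcongr
        exact subst Φ hρ
    _ = ENNReal.ofReal ((2 * ρ) ^ d * (4 * ρ)) * ∫⁻ Z in Icc (1 / 2 : ℝ) 1, Φ Z := by
        rw [← mul_assoc, ← ENNReal.ofReal_mul (by positivity)]
    _ = _ := by
        congr 1
        unfold Wd
        rw [Measure.volume_eq_prod, ← Measure.prod_restrict, Measure.restrict_univ,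
          lintegral_prod _ (hPm.enorm.pow_const _).aemeasurable]

end Pool.Agent.U527.Crv
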