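import Pool.Agent.U527.Crv.Four

set_option autoImplicit false

/-! The square function bound for the differences of the averages over blocks. -/

open MeasureTheory Set ENNReal Real Complex

namespace Pool.Agent.U527.Crv

variable {V : Type*} [NormedAddCommGroup V] [InnerProductSpace ℝ V] [MeasurableSpace V]
  [BorelSpace V] [FiniteDimensional ℝ V]

/-- The indicator function of a ball. -/
noncomputable def chi (R : ℝ) (x : V) : ℝ := (Metric.ball (0 : V) R).indicator (fun _ => (1:ℝ)) x

omit [InnerProductSpace ℝ V] [FiniteDimensional ℝ V] in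
theorem chi_meas (R : ℝ) : Measurable (chi R : V → ℝ) := by
  unfold chi
  exact Measurable.indicator measurable_const Metric.isOpen_ball.measurableSet

omit [InnerProductSpace ℝ V] [MeasurableSpace V] [BorelSpace V] [FiniteDimensional ℝ V] in
theorem chi_nonneg (R : ℝ) (x : V) : 0 ≤ chi R x := indicator_nonneg (fun _ _ => zero_le_one) _

omit [InnerProductSpace ℝ V] [MeasurableSpace V] [BorelSpace V] [FiniteDimensional ℝ V] in
theorem chi_le (R : ℝ) (x : V) : chi R x ≤ 1 := by
  unfold chi
  exact indicator_le_self' (fun _ _ => zero_le_one) _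

omit [InnerProductSpace ℝ V] [MeasurableSpace V] [BorelSpace V] [FiniteDimensional ℝ V] in
theorem chi_zero {R : ℝ} {x : V} (h : R ≤ ‖x‖) : chi R x = 0 := by
  apply indicator_of_notMem
  simpa using h

omit [InnerProductSpace ℝ V] [MeasurableSpace V] [BorelSpace V] [FiniteDimensional ℝ V] in
theorem chi_one {R : ℝ} {x : V} (h : ‖x‖ < R) : chi R x = 1 := by
  apply indicator_of_mem
  simpa using h

/-- A weighted sum of the cylinders. -/
noncomputable def cylS {ι : Type*} [Fintype ι] (w : ι → ℕ → ℝ) (v : ι → V) (b : ℕ → V) (K : ℕ)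
    (R : ℝ) (p : ℝ × V) : ℝ :=
  ∑ t, ∑ k ∈ Finset.range K, w t k * chi R (p.2 - p.1 • b k - v t)

omit [FiniteDimensional ℝ V] in
theorem cylS_meas [SecondCountableTopology V] {ι : Type*} [Fintype ι] (w : ι → ℕ → ℝ) (v : ι → V) (b : ℕ → V) (K : ℕ)
    (R : ℝ) : Measurable (cylS w v b K R) := by
  unfold cylS
  apply Finset.measurable_sum
  intro t _
  apply Finset.measurable_sum
  intro k _
  apply Measurable.const_mul
  exact (chi_meas R).comp (by fun_prop)

/-- One cylinder. -/
theorem one_cyl {G : ℝ → V → ℂ} {B N : ℝ} (h : Nice G B N) (R : ℝ) (b v : V) :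
    Integrable (fun p : ℝ × V => ((chi R (p.2 - p.1 • b - v) : ℝ) : ℂ) * G p.1 p.2) ∧
    ∫ p : ℝ × V, ((chi R (p.2 - p.1 • b - v) : ℝ) : ℂ) * G p.1 p.2 =
      ∫ w, ((chi R (w - v) : ℝ) : ℂ) * Fl G b w := by
  have hm : Measurable (fun p : ℝ × V => ((chi R (p.2 - p.1 • b - v) : ℝ) : ℂ) * G p.1 p.2) := by
    have h1 : Measurable (fun p : ℝ × V => ((chi R (p.2 - p.1 • b - v) : ℝ) : ℂ)) :=
      Complex.measurable_ofReal.comp ((chi_meas R).comp (by fun_prop))
    exact h1.mul h.meas
  have hb1 : ∀ x : V, ‖((chi R x : ℝ) : ℂ)‖ ≤ 1 := by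
    intro x
    rw [Complex.norm_real, Real.norm_of_nonneg (chi_nonneg R x)]
    exact chi_le R x
  have hbd : ∀ p : ℝ × V, ‖((chi R (p.2 - p.1 • b - v) : ℝ) : ℂ) * G p.1 p.2‖ ≤ B := by
    intro p
    rw [norm_mul]
    calc _ ≤ 1 * ‖G p.1 p.2‖ := by gcongr; exact hb1 _
      _ ≤ B := by rw [one_mul]; exact h.bd _ _
  have hint : Integrable (fun p : ℝ × V => ((chi R (p.2 - p.1 • b - v) : ℝ) : ℂ) * G p.1 p.2)
      ((volume : Measure ℝ).prod (volume : Measure V)) := by
    refine (bdd_integrable (μ := (volume : Measure ℝ).prod (volume : Measure V)) (B := B)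
      (S := Icc (1 / 2) 1 ×ˢ Metric.closedBall (0 : V) N) hm hbd ?_ ?_ ?_).1
    · rw [Measure.prod_prod]
      exact ENNReal.mul_ne_top (by simp) measure_closedBall_lt_top.ne
    · exact measurableSet_Icc.prod measurableSet_closedBall
    · rintro ⟨r, y⟩ hp
      simp only [mem_prod, not_and_or] at hp
      have : G r y = 0 := by
        rcases hp with hp | hp
        · exact h.supp_r r _ hp
        · apply h.supp_y
          rw [Metric.mem_closedBall, dist_zero_right, not_le] at hp
          exact hp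
      simp only [this, mul_zero]
  refine ⟨hint, ?_⟩
  have hint2 : Integrable (fun p : V × ℝ => ((chi R (p.1 - v) : ℝ) : ℂ) * G p.2 (p.1 + p.2 • b))
      ((volume : Measure V).prod (volume : Measure ℝ)) := by
    have hm2 : Measurable (fun p : V × ℝ => ((chi R (p.1 - v) : ℝ) : ℂ) * G p.2 (p.1 + p.2 • b)) := by
      have h1 : Measurable (fun p : V × ℝ => ((chi R (p.1 - v) : ℝ) : ℂ)) :=
        Complex.measurable_ofReal.comp ((chi_meas R).comp (by fun_prop))
      have h2 : Measurable (fun p : V × ℝ => (p.2, p.1 + p.2 • b)) := by fun_prop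
      exact h1.mul (h.meas.comp h2)
    refine (bdd_integrable (μ := (volume : Measure V).prod (volume : Measure ℝ)) (B := B)
      (S := Metric.closedBall v R ×ˢ Icc (1 / 2) 1) hm2 ?_ ?_ ?_ ?_).1
    · intro p
      rw [norm_mul]
      calc _ ≤ 1 * ‖G p.2 (p.1 + p.2 • b)‖ := by gcongr; exact hb1 _
        _ ≤ B := by rw [one_mul]; exact h.bd _ _
    · rw [Measure.prod_prod]
      exact ENNReal.mul_ne_top measure_closedBall_lt_top.ne (by simp)
    · exact measurableSet_closedBall.prod measurableSet_Icc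
    · rintro ⟨y, r⟩ hp
      simp only [mem_prod, not_and_or] at hp
      rcases hp with hp | hp
      · rw [Metric.mem_closedBall, dist_eq_norm, not_le] at hp
        simp only [chi_zero hp.le, Complex.ofReal_zero, zero_mul]
      · simp only [h.supp_r r _ hp, mul_zero]
  calc ∫ p : ℝ × V, ((chi R (p.2 - p.1 • b - v) : ℝ) : ℂ) * G p.1 p.2
      = ∫ r : ℝ, ∫ y : V, ((chi R (y - r • b - v) : ℝ) : ℂ) * G r y := by
        rw [Measure.volume_eq_prod, integral_prod _ hint]
    _ = ∫ r : ℝ, ∫ y : V, ((chi R (y - v) : ℝ) : ℂ) * G r (y + r • b) := by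
        congr 1
        funext r
        have h1 := integral_add_right_eq_self (μ := (volume : Measure V))
          (fun y : V => ((chi R (y - r • b - v) : ℝ) : ℂ) * G r y) (r • b)
        rw [← h1]
        simp only [add_sub_cancel_right]
    _ = ∫ y : V, ∫ r : ℝ, ((chi R (y - v) : ℝ) : ℂ) * G r (y + r • b) :=
        (integral_integral_swap hint2).symm
    _ = _ := by
        congr 1
        funext y
        unfold Fl
        exact integral_const_mul _ _

/-- Duality. -/
theorem L2 {ι : Type*} [Fintype ι] (v : ι → V) (κ : ι → ℕ) (b : ℕ → V) {K M : ℕ} (R : ℝ)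
    (hb : ∀ η, CrossAt M K (fun k => inner ℝ (b k) η)) (i : ℕ) :
    ∫⁻ p in Icc (1 / 2 : ℝ) 1 ×ˢ (univ : Set V), ‖cylS (fun t => Dw i (κ t / 2 ^ i)) v b K R p‖ₑ ^ 2 ≤
      2624 * (M + 1) * ∫⁻ w, (∑ t, ENNReal.ofReal (chi R (w - v t))) ^ 2 := by
  classical
  set Q : ℝ × V → ℝ := cylS (fun t => Dw i (κ t / 2 ^ i)) v b K R with hQ
  have hQm : Measurable Q := cylS_meas _ _ _ _ _
  set W : Set (ℝ × V) := Icc (1 / 2 : ℝ) 1 ×ˢ (univ : Set V) with hW
  have hWm : MeasurableSet W := measurableSet_Icc.prod MeasurableSet.univ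
  -- the dual function
  set g : ℝ × V → ℝ := W.indicator Q with hg
  have hgm : Measurable g := hQm.indicator hWm
  set G : ℝ → V → ℂ := fun r y => ((g (r, y) : ℝ) : ℂ) with hG
  -- bounds
  have hQb : ∀ p, |Q p| ≤ 2 * Fintype.card ι := by
    intro p
    rw [hQ]
    unfold cylS
    calc |∑ t, ∑ k ∈ Finset.range K, Dw i (κ t / 2 ^ i) k * chi R (p.2 - p.1 • b k - v t)|
        ≤ ∑ t, |∑ k ∈ Finset.range K, Dw i (κ t / 2 ^ i) k * chi R (p.2 - p.1 • b k - v t)| :=
          Finset.abs_sum_le_sum_abs _ _
      _ ≤ ∑ _t : ι, (2 : ℝ) := by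
          apply Finset.sum_le_sum
          intro t _
          calc _ ≤ ∑ k ∈ Finset.range K, |Dw i (κ t / 2 ^ i) k * chi R (p.2 - p.1 • b k - v t)| :=
                Finset.abs_sum_le_sum_abs _ _
            _ ≤ ∑ k ∈ Finset.range K, |Dw i (κ t / 2 ^ i) k| := by
                apply Finset.sum_le_sum
                intro k _
                rw [abs_mul, abs_of_nonneg (chi_nonneg _ _)]
                calc _ ≤ |Dw i (κ t / 2 ^ i) k| * 1 := by
                      gcongr
                      exact chi_le _ _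
                  _ = _ := mul_one _
            _ ≤ 2 := Dw_abs_sum _ _ _
      _ = 2 * Fintype.card ι := by simp [mul_comm]
  set B : ℝ := 2 * Fintype.card ι with hB
  have hB0 : 0 ≤ B := by positivity
  -- the support
  set N : ℝ := |R| + ∑ t, ‖v t‖ + ∑ k ∈ Finset.range K, ‖b k‖ with hN
  have hQs : ∀ r y, r ∈ Icc (1 / 2 : ℝ) 1 → N < ‖y‖ → Q (r, y) = 0 := by
    intro r y hr hy
    rw [hQ]
    unfold cylS
    apply Finset.sum_eq_zero
    intro t _
    apply Finset.sum_eq_zero
    intro k hk
    rw [chi_zero, mul_zero]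
    have h1 : ‖v t‖ ≤ ∑ t, ‖v t‖ := Finset.single_le_sum (f := fun t => ‖v t‖) (fun _ _ => norm_nonneg _) (Finset.mem_univ t)
    have h2 : ‖b k‖ ≤ ∑ k ∈ Finset.range K, ‖b k‖ := Finset.single_le_sum (f := fun k => ‖b k‖) (fun _ _ => norm_nonneg _) hk
    have h3 : ‖r • b k‖ ≤ ‖b k‖ := by
      rw [norm_smul, Real.norm_eq_abs]
      have : |r| ≤ 1 := by rw [abs_le]; constructor <;> linarith [hr.1, hr.2]
      nlinarith [norm_nonneg (b k)]
    have h4 : ‖y‖ ≤ ‖y - r • b k - v t‖ + ‖r • b k‖ + ‖v t‖ := by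
      calc ‖y‖ = ‖(y - r • b k - v t) + r • b k + v t‖ := by congr 1; abel
        _ ≤ ‖(y - r • b k - v t) + r • b k‖ + ‖v t‖ := norm_add_le _ _
        _ ≤ _ := by gcongr; exact norm_add_le _ _
    have h5 := le_abs_self R
    show R ≤ ‖y - r • b k - v t‖
    linarith
  have hNice : Nice G B N := by
    refine ⟨?_, ?_, ?_, ?_⟩
    · have e : Function.uncurry G = fun p : ℝ × V => ((g p : ℝ) : ℂ) := rfl
      rw [e]
      exact Complex.measurable_ofReal.comp hgm
    · intro r y
      simp only [hG]
      rw [Complex.norm_real, Real.norm_eq_abs]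
      by_cases hp : (r, y) ∈ W
      · rw [hg, indicator_of_mem hp]
        exact hQb _
      · rw [hg, indicator_of_notMem hp, abs_zero]
        exact hB0
    · intro r y hr
      simp only [hG]
      rw [hg, indicator_of_notMem, Complex.ofReal_zero]
      rw [hW]
      simp only [mem_prod, not_and_or]
      left
      exact hr
    · intro r y hy
      simp only [hG]
      by_cases hp : (r, y) ∈ W
      · rw [hg, indicator_of_mem hp, hQs r y _ hy, Complex.ofReal_zero]
        rw [hW] at hp
        exact hp.1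
      · rw [hg, indicator_of_notMem hp, Complex.ofReal_zero]
  -- the quantity to be estimated
  set S : ℝ≥0∞ := ∫⁻ p, ‖g p‖ₑ ^ 2 with hS
  have hSe : ∫⁻ p in W, ‖Q p‖ₑ ^ 2 = S := by
    rw [hS, ← lintegral_indicator hWm]
    apply lintegral_congr
    intro p
    by_cases hp : p ∈ W
    · rw [indicator_of_mem hp, hg, indicator_of_mem hp]
    · rw [indicator_of_notMem hp, hg, indicator_of_notMem hp]
      simp
  have hS2 : S = ∫⁻ r, ∫⁻ y, ‖G r y‖ₑ ^ 2 := by
    rw [hS, Measure.volume_eq_prod, lintegral_prod _ (hgm.enorm.pow_const _).aemeasurable]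
    apply lintegral_congr
    intro r
    apply lintegral_congr
    intro y
    simp only [hG]
    rw [← ofReal_norm, ← ofReal_norm, Complex.norm_real]
  have hgint : Integrable (fun p => g p ^ 2) := by
    have h1 := (one_cyl hNice R (0:V) 0)
    -- bounded with bounded support
    have h2 : Integrable (fun p : ℝ × V => ((g p : ℝ) : ℂ) ^ 2) := by
      refine (bdd_integrable (B := B ^ 2) (S := Icc (1 / 2) 1 ×ˢ Metric.closedBall (0 : V) N) ?_ ?_ ?_ ?_ ?_).1
      · exact (Complex.measurable_ofReal.comp hgm).pow_const _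
      · intro p
        rw [norm_pow]
        exact pow_le_pow_left₀ (norm_nonneg _) (hNice.bd p.1 p.2) 2
      · rw [Measure.volume_eq_prod, Measure.prod_prod]
        exact ENNReal.mul_ne_top (by simp) measure_closedBall_lt_top.ne
      · exact measurableSet_Icc.prod measurableSet_closedBall
      · rintro ⟨r, y⟩ hp
        simp only [mem_prod, not_and_or] at hp
        have : G r y = 0 := by
          rcases hp with hp | hp
          · exact hNice.supp_r r _ hp
          · apply hNice.supp_y
            rw [Metric.mem_closedBall, dist_zero_right, not_le] at hp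
            exact hp
        simp only [hG] at this
        rw [this]
        simp
    have h3 := h2.re
    refine h3.congr ?_
    filter_upwards with p
    rw [← Complex.ofReal_pow]
    rfl
  have hSr : S = ENNReal.ofReal (∫ p, g p ^ 2) := by
    rw [ofReal_integral_eq_lintegral_ofReal hgint (Filter.Eventually.of_forall fun p => sq_nonneg _), hS]
    apply lintegral_congr
    intro p
    rw [← ofReal_norm, ← ENNReal.ofReal_pow (norm_nonneg _), Real.norm_eq_abs, sq_abs]
  have hStop : S ≠ ∞ := by rw [hSr]; exact ENNReal.ofReal_ne_top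
  -- the identity
  set D : ℕ → V → ℂ := fun j w => ∑ k ∈ Finset.range K, ((Dw i j k : ℝ) : ℂ) * Fl G (b k) w with hD
  have hDm : ∀ j, Measurable (D j) := by
    intro j
    rw [hD]
    apply Finset.measurable_sum
    intro k _
    exact (hNice.Fl_meas (b k)).const_mul _
  have hid : ((∫ p, g p ^ 2 : ℝ) : ℂ) = ∑ t, ∫ w, ((chi R (w - v t) : ℝ) : ℂ) * D (κ t / 2 ^ i) w := by
    have e1 : ∀ p : ℝ × V, ((g p ^ 2 : ℝ) : ℂ) = ∑ t, ∑ k ∈ Finset.range K,
        ((Dw i (κ t / 2 ^ i) k : ℝ) : ℂ) * (((chi R (p.2 - p.1 • b k - v t) : ℝ) : ℂ) * G p.1 p.2) := by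
      intro p
      have e2 : g p ^ 2 = Q p * g p := by
        by_cases hp : p ∈ W
        · rw [hg, indicator_of_mem hp]; ring
        · rw [hg, indicator_of_notMem hp]; ring
      rw [e2, hQ]
      unfold cylS
      rw [Finset.sum_mul]
      push_cast
      apply Finset.sum_congr rfl
      intro t _
      rw [Finset.sum_mul]
      apply Finset.sum_congr rfl
      intro k _
      simp only [hG]
      push_cast
      ring
    rw [← integral_complex_ofReal]
    simp only [e1]
    rw [integral_finsetSum]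
    · apply Finset.sum_congr rfl
      intro t _
      rw [integral_finsetSum]
      · have e3 : ∀ w, ((chi R (w - v t) : ℝ) : ℂ) * D (κ t / 2 ^ i) w = ∑ k ∈ Finset.range K,
            ((Dw i (κ t / 2 ^ i) k : ℝ) : ℂ) * (((chi R (w - v t) : ℝ) : ℂ) * Fl G (b k) w) := by
          intro w
          rw [hD]
          simp only
          rw [Finset.mul_sum]
          apply Finset.sum_congr rfl
          intro k _
          ring
        simp only [e3]
        rw [integral_finsetSum]
        · apply Finset.sum_congr rfl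
          intro k _
          rw [integral_const_mul, integral_const_mul, (one_cyl hNice R (b k) (v t)).2]
        · intro k _
          apply Integrable.const_mul
          refine (bdd_integrable (B := B) (S := Metric.closedBall (v t) R) ?_ ?_ ?_ ?_ ?_).1
          · exact (Complex.measurable_ofReal.comp ((chi_meas R).comp (by fun_prop))).mul
              (hNice.Fl_meas (b k))
          · intro w
            rw [norm_mul, Complex.norm_real, Real.norm_of_nonneg (chi_nonneg R _)]
            calc _ ≤ 1 * ‖Fl G (b k) w‖ := by gcongr; exact chi_le R _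
              _ ≤ B := by rw [one_mul]; exact hNice.Fl_bd hB0 _ _
          · exact measure_closedBall_lt_top.ne
          · exact measurableSet_closedBall
          · intro w hw
            rw [Metric.mem_closedBall, dist_eq_norm, not_le] at hw
            rw [chi_zero hw.le, Complex.ofReal_zero, zero_mul]
      · intro k _
        exact (one_cyl hNice R (b k) (v t)).1.const_mul _
    · intro t _
      apply integrable_finsetSum
      intro k _
      exact (one_cyl hNice R (b k) (v t)).1.const_mul _
  -- the estimate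
  set n : V → ℝ≥0∞ := fun w => ∑ t, ENNReal.ofReal (chi R (w - v t)) with hn
  have hnm : Measurable n := by
    rw [hn]
    apply Finset.measurable_sum
    intro t _
    exact ((chi_meas R).comp (by fun_prop)).ennreal_ofReal
  obtain ⟨J, hJ⟩ : ∃ J, ∀ t, κ t / 2 ^ i < J := by
    refine ⟨(∑ t, κ t / 2 ^ i) + 1, fun t => ?_⟩
    have := Finset.single_le_sum (f := fun t => κ t / 2 ^ i) (fun _ _ => Nat.zero_le _) (Finset.mem_univ t)
    omega
  set sq : V → ℝ≥0∞ := fun w => ∑ j ∈ Finset.range J, ‖D j w‖ₑ ^ 2 with hsq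
  have hsqm : Measurable sq := by
    rw [hsq]
    apply Finset.measurable_sum
    intro j _
    exact (hDm j).enorm.pow_const _
  have e4 : ∀ x : ℝ≥0∞, (x ^ (1 / (2 : ℝ))) ^ 2 = x := by
    intro x
    rw [← ENNReal.rpow_natCast, ← ENNReal.rpow_mul]
    norm_num
  have e5 : ∀ x : ℝ≥0∞, (x ^ 2) ^ (1 / (2 : ℝ)) = x := by
    intro x
    rw [← ENNReal.rpow_natCast, ← ENNReal.rpow_mul]
    norm_num
  have hS3 : S ≤ ∫⁻ w, n w * (sq w) ^ (1 / (2:ℝ)) := by
    calc S = ‖((∫ p, g p ^ 2 : ℝ) : ℂ)‖ₑ := by
          rw [hSr, ← ofReal_norm, Complex.norm_real, Real.norm_of_nonneg (integral_nonneg fun p => sq_nonneg _)]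
      _ ≤ ∑ t, ‖∫ w, ((chi R (w - v t) : ℝ) : ℂ) * D (κ t / 2 ^ i) w‖ₑ := by
          rw [hid]
          exact enorm_sum_le _ _
      _ ≤ ∑ t, ∫⁻ w, ENNReal.ofReal (chi R (w - v t)) * (sq w) ^ (1 / (2:ℝ)) := by
          gcongr with t
          refine (enorm_integral_le_lintegral_enorm _).trans ?_
          apply lintegral_mono
          intro w
          beta_reduce
          rw [enorm_mul]
          gcongr
          · rw [← ofReal_norm, Complex.norm_real, Real.norm_of_nonneg (chi_nonneg R _)]
          · rw [← e5 ‖D (κ t / 2 ^ i) w‖ₑ]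
            gcongr
            exact Finset.single_le_sum (f := fun j => ‖D j w‖ₑ ^ 2) (fun _ _ => zero_le)
              (Finset.mem_range.2 (hJ t))
      _ = ∫⁻ w, n w * (sq w) ^ (1 / (2:ℝ)) := by
          rw [← lintegral_finsetSum]
          · apply lintegral_congr
            intro w
            rw [hn]
            simp only
            rw [Finset.sum_mul]
          · intro t _
            exact ((chi_meas R).comp (by fun_prop)).ennreal_ofReal.mul (hsqm.pow_const _)
  have hS4 : S ^ 2 ≤ (∫⁻ w, n w ^ 2) * ∫⁻ w, sq w := by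
    have h2 := ENNReal.lintegral_mul_le_Lp_mul_Lq (volume : Measure V)
      (Real.HolderConjugate.two_two) (f := n) (g := fun w => (sq w) ^ (1 / (2:ℝ)))
      hnm.aemeasurable (hsqm.pow_const _).aemeasurable
    calc S ^ 2 ≤ (∫⁻ w, n w * (sq w) ^ (1 / (2:ℝ))) ^ 2 := by gcongr
      _ ≤ ((∫⁻ w, n w ^ (2:ℝ)) ^ (1 / (2:ℝ)) * (∫⁻ w, ((sq w) ^ (1 / (2:ℝ))) ^ (2:ℝ)) ^ (1 / (2:ℝ))) ^ 2 := by
          gcongr
          exact h2
      _ = _ := by
          rw [mul_pow, e4, e4]
          congr 1
          · apply lintegral_congr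
            intro w
            exact_mod_cast ENNReal.rpow_natCast _ 2
          · apply lintegral_congr
            intro w
            rw [← ENNReal.rpow_mul]
            norm_num
  have hS5 : ∫⁻ w, sq w ≤ 2624 * (M + 1) * S := by
    rw [hsq]
    simp only
    rw [lintegral_finsetSum _ (fun j _ => (hDm j).enorm.pow_const _), hS2]
    exact hNice.main hB0 hb i J
  rw [hSe]
  rcases eq_or_ne S 0 with h0 | h0
  · rw [h0]
    exact zero_le
  have h6 : S * S ≤ (2624 * (M + 1) * ∫⁻ w, n w ^ 2) * S := by
    calc S * S = S ^ 2 := by ring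
      _ ≤ (∫⁻ w, n w ^ 2) * ∫⁻ w, sq w := hS4
      _ ≤ (∫⁻ w, n w ^ 2) * (2624 * (M + 1) * S) := by gcongr
      _ = _ := by ring
  exact (ENNReal.mul_le_mul_iff_left h0 hStop).1 h6

end Pool.Agent.U527.Crv
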