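import Mathlib

set_option autoImplicit false

/-! Elementary Sobolev inequalities on the line. -/

open MeasureTheory Set ENNReal Real

namespace Pool.Agent.U527.Crv

/-- Squared size of a function and of its derivative. -/
noncomputable def en (G G' : ℝ → ℂ) (x : ℝ) : ℝ≥0∞ := ‖G x‖ₑ ^ 2 + ‖G' x‖ₑ ^ 2

theorem en_meas {G G' : ℝ → ℂ} (h1 : Continuous G) (h2 : Continuous G') : Measurable (en G G') := by
  unfold en
  exact (h1.measurable.enorm.pow_const _).add (h2.measurable.enorm.pow_const _)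

theorem sq_add_le (a b : ℝ≥0∞) : (a + b) ^ 2 ≤ 2 * (a ^ 2 + b ^ 2) := by
  have h := ENNReal.rpow_add_le_mul_rpow_add_rpow a b (p := 2) (by norm_num)
  have e : (2:ℝ≥0∞) ^ ((2:ℝ) - 1) = 2 := by
    norm_num
  rw [e] at h
  exact_mod_cast h

/-- Cauchy-Schwarz. -/
theorem cs_interval (f : ℝ → ℝ≥0∞) (hf : Measurable f) (a b : ℝ) :
    (∫⁻ x in Icc a b, f x) ^ 2 ≤ ENNReal.ofReal (b - a) * ∫⁻ x in Icc a b, f x ^ 2 := by
  have h2 := ENNReal.lintegral_mul_le_Lp_mul_Lq (volume.restrict (Icc a b))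
    (Real.HolderConjugate.two_two) (f := fun _ => (1 : ℝ≥0∞)) (g := f)
    aemeasurable_const hf.aemeasurable
  have e0 : (fun _ : ℝ => (1 : ℝ≥0∞)) * f = f := by
    funext r
    simp
  rw [e0] at h2
  have e4 : ∀ x : ℝ≥0∞, (x ^ (1 / (2 : ℝ))) ^ 2 = x := by
    intro x
    rw [← ENNReal.rpow_natCast, ← ENNReal.rpow_mul]
    norm_num
  calc (∫⁻ x in Icc a b, f x) ^ 2
      ≤ ((∫⁻ _ in Icc a b, (1 : ℝ≥0∞) ^ (2 : ℝ)) ^ (1 / (2 : ℝ)) *
        (∫⁻ r in Icc a b, f r ^ (2 : ℝ)) ^ (1 / (2 : ℝ))) ^ 2 := by gcongr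
    _ = ENNReal.ofReal (b - a) * ∫⁻ x in Icc a b, f x ^ 2 := by
        rw [mul_pow, e4, e4]
        congr 1
        · simp
        · apply lintegral_congr
          intro x
          exact_mod_cast ENNReal.rpow_natCast _ 2

theorem diff_le {G G' : ℝ → ℂ} (hG : ∀ x, HasDerivAt G (G' x) x) (hG' : Continuous G') {lo hi : ℝ}
    {a b : ℝ} (ha : a ∈ Icc lo hi) (hb : b ∈ Icc lo hi) :
    ‖G a - G b‖ₑ ≤ ∫⁻ x in Icc lo hi, ‖G' x‖ₑ := by
  wlog hab : b ≤ a generalizing a b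
  · have h := this hb ha (not_le.1 hab).le
    rwa [← enorm_neg, neg_sub] at h
  have h1 : G a - G b = ∫ x in b..a, G' x :=
    (intervalIntegral.integral_eq_sub_of_hasDerivAt (fun x _ => hG x)
      (hG'.intervalIntegrable _ _)).symm
  rw [h1, intervalIntegral.integral_of_le hab]
  refine (enorm_integral_le_lintegral_enorm _).trans ?_
  apply lintegral_mono_set
  intro x hx
  exact ⟨hb.1.trans hx.1.le, hx.2.trans ha.2⟩

/-- The value at a point of an interval of length one. -/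
theorem sup_unit {G G' : ℝ → ℂ} (hG : ∀ x, HasDerivAt G (G' x) x) (hG' : Continuous G') {c : ℝ}
    {a : ℝ} (ha : a ∈ Icc c (c + 1)) :
    ‖G a‖ₑ ^ 2 ≤ 2 * ∫⁻ x in Icc c (c + 1), en G G' x := by
  have hGc : Continuous G := continuous_iff_continuousAt.2 fun x => (hG x).continuousAt
  have hv : volume (Icc c (c + 1)) = 1 := by simp
  have h1 : ∀ x ∈ Icc c (c + 1), ‖G a‖ₑ ^ 2 ≤
      2 * (‖G x‖ₑ ^ 2 + ∫⁻ x in Icc c (c + 1), ‖G' x‖ₑ ^ 2) := by
    intro x hx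
    have h2 : ‖G a‖ₑ ≤ ‖G x‖ₑ + ∫⁻ x in Icc c (c + 1), ‖G' x‖ₑ := by
      calc ‖G a‖ₑ = ‖G x + (G a - G x)‖ₑ := by congr 1; ring
        _ ≤ ‖G x‖ₑ + ‖G a - G x‖ₑ := enorm_add_le _ _
        _ ≤ _ := by gcongr; exact diff_le hG hG' ha hx
    calc ‖G a‖ₑ ^ 2 ≤ (‖G x‖ₑ + ∫⁻ x in Icc c (c + 1), ‖G' x‖ₑ) ^ 2 := by gcongr
      _ ≤ 2 * (‖G x‖ₑ ^ 2 + (∫⁻ x in Icc c (c + 1), ‖G' x‖ₑ) ^ 2) := sq_add_le _ _
      _ ≤ _ := by
          gcongr
          refine (cs_interval _ hG'.measurable.enorm _ _).trans (le_of_eq ?_)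
          rw [add_sub_cancel_left, ENNReal.ofReal_one, one_mul]
  calc ‖G a‖ₑ ^ 2 = ∫⁻ _ in Icc c (c + 1), ‖G a‖ₑ ^ 2 := by
        rw [setLIntegral_const, hv, mul_one]
    _ ≤ ∫⁻ x in Icc c (c + 1), 2 * (‖G x‖ₑ ^ 2 + ∫⁻ x in Icc c (c + 1), ‖G' x‖ₑ ^ 2) :=
        setLIntegral_mono' measurableSet_Icc h1
    _ = 2 * ((∫⁻ x in Icc c (c + 1), ‖G x‖ₑ ^ 2) + ∫⁻ x in Icc c (c + 1), ‖G' x‖ₑ ^ 2) := by
        rw [lintegral_const_mul' _ _ (by norm_num),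
          lintegral_add_left (hGc.measurable.enorm.pow_const _), setLIntegral_const, hv, mul_one]
    _ = _ := by
        unfold en
        rw [lintegral_add_left (hGc.measurable.enorm.pow_const _)]

theorem sup_line {G G' : ℝ → ℂ} (hG : ∀ x, HasDerivAt G (G' x) x) (hG' : Continuous G') (a : ℝ) :
    ‖G a‖ₑ ^ 2 ≤ 2 * ∫⁻ x, en G G' x :=
  (sup_unit hG hG' (c := a) ⟨le_rfl, by linarith⟩).trans
    (by gcongr; exact Measure.restrict_le_self)

/-- The oscillation on an interval of any length. -/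
theorem diff_sq_le {G G' : ℝ → ℂ} (hG : ∀ x, HasDerivAt G (G' x) x) (hG' : Continuous G')
    {lo hi : ℝ} {a b : ℝ} (ha : a ∈ Icc lo hi) (hb : b ∈ Icc lo hi) :
    ‖G a - G b‖ₑ ^ 2 ≤ 8 * ∫⁻ x in Icc lo hi, en G G' x := by
  rcases le_total (hi - lo) 1 with h | h
  · calc ‖G a - G b‖ₑ ^ 2 ≤ (∫⁻ x in Icc lo hi, ‖G' x‖ₑ) ^ 2 := by
          gcongr
          exact diff_le hG hG' ha hb
      _ ≤ ENNReal.ofReal (hi - lo) * ∫⁻ x in Icc lo hi, ‖G' x‖ₑ ^ 2 :=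
          cs_interval _ hG'.measurable.enorm _ _
      _ ≤ 8 * ∫⁻ x in Icc lo hi, en G G' x := by
          gcongr
          · rw [← ENNReal.ofReal_ofNat 8]
            exact ENNReal.ofReal_le_ofReal (by norm_num; linarith)
          · unfold en
            exact le_add_self
  · have key : ∀ a ∈ Icc lo hi, ‖G a‖ₑ ^ 2 ≤ 2 * ∫⁻ x in Icc lo hi, en G G' x := by
      intro a ha
      have hc : ∃ c, lo ≤ c ∧ c + 1 ≤ hi ∧ a ∈ Icc c (c + 1) := by
        rcases le_total (a + 1) hi with h1 | h1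
        · exact ⟨a, ha.1, h1, le_rfl, by linarith⟩
        · exact ⟨hi - 1, by linarith, by linarith, by linarith, by linarith [ha.2]⟩
      obtain ⟨c, h1, h2, h3⟩ := hc
      refine (sup_unit hG hG' h3).trans ?_
      gcongr
    calc ‖G a - G b‖ₑ ^ 2 ≤ (‖G a‖ₑ + ‖G b‖ₑ) ^ 2 := by
          gcongr
          exact enorm_sub_le
      _ ≤ 2 * (‖G a‖ₑ ^ 2 + ‖G b‖ₑ ^ 2) := sq_add_le _ _
      _ ≤ 2 * (2 * (∫⁻ x in Icc lo hi, en G G' x) + 2 * ∫⁻ x in Icc lo hi, en G G' x) := by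
          gcongr
          · exact key a ha
          · exact key b hb
      _ = _ := by ring

end Pool.Agent.U527.Crv
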