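import Pool.Agent.U527.Crv.Pack

set_option autoImplicit false

/-! The sum over the levels. -/

open MeasureTheory Set ENNReal Real Metric

namespace Pool.Agent.U527.Crv

open Pool.Agent.H810R3.Tub

variable {d : ℕ}

/-- Interpolation between the exponents `1`, `2` and `∞`. -/
theorem interp3 {α : Type*} [MeasurableSpace α] {μ : Measure α} {F : α → ℝ≥0∞} (hF : Measurable F)
    {L A₁ A₂ : ℝ≥0∞} (hL : ∀ᵐ a ∂μ, F a ≤ L) (h1 : ∫⁻ a, F a ∂μ ≤ A₁) (h2 : ∫⁻ a, F a ^ 2 ∂μ ≤ A₂)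
    {q₀ β : ℝ} (hq : 1 ≤ q₀) (hq2 : q₀ ≤ 2) (hβ : 0 ≤ β) :
    ∫⁻ a, F a ^ (q₀ + β) ∂μ ≤ L ^ β * (A₁ ^ (2 - q₀) * A₂ ^ (q₀ - 1)) := by
  have h3 := interp (μ := μ) hF (p := q₀) (q := 2) (by norm_num) hq hq2
  have e1 : 1 - (q₀ - 1) / (2 - 1) = 2 - q₀ := by ring
  have e2 : (q₀ - 1) / (2 - 1) = q₀ - 1 := by ring
  rw [e1, e2] at h3
  have e3 : ∫⁻ a, F a ^ (2:ℝ) ∂μ = ∫⁻ a, F a ^ 2 ∂μ := by
    apply lintegral_congr
    intro a
    exact_mod_cast ENNReal.rpow_natCast _ 2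
  rw [e3] at h3
  calc ∫⁻ a, F a ^ (q₀ + β) ∂μ ≤ ∫⁻ a, L ^ β * F a ^ q₀ ∂μ := by
        apply lintegral_mono_ae
        filter_upwards [hL] with a ha
        rw [ENNReal.rpow_add_of_nonneg _ _ (by linarith) hβ, mul_comm]
        gcongr
    _ = L ^ β * ∫⁻ a, F a ^ q₀ ∂μ := lintegral_const_mul _ (hF.pow_const _)
    _ ≤ L ^ β * ((∫⁻ a, F a ∂μ) ^ (2 - q₀) * (∫⁻ a, F a ^ 2 ∂μ) ^ (q₀ - 1)) := by gcongr
    _ ≤ _ := by
        have h5 : 0 ≤ 2 - q₀ := by linarith
        have h6 : 0 ≤ q₀ - 1 := by linarith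
        gcongr

/-- The constant of one region. -/
noncomputable def cst (d : ℕ) (q₀ β N M R δ ε : ℝ) : ℝ :=
  (2 * (N * (1 + 4 * R / ε) ^ d)) ^ β * ((2 * (N * (R ^ d * om d))) ^ (2 - q₀) *
    (2624 * (M + 1) * ((1 + 2 * R / δ) ^ d * (N * (R ^ d * om d)))) ^ (q₀ - 1))

section region

variable {ι : Type*} [Fintype ι] [Nonempty ι] (v : ι → Vec d) (κ : ι → ℕ) (b : ℕ → Vec d) {M K : ℕ}

/-- One difference. -/
theorem Qf_pow (hd : 1 ≤ d) {R δ ε : ℝ} (hR : 0 < R) (hδ : 0 < δ) (hε : 0 < ε)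
    (hsep : ∀ i j, i ≠ j → δ ≤ ‖v i - v j‖)
    (hb : ∀ k < K, ∀ k' < K, k ≠ k' → ε ≤ ‖b k - b k'‖)
    (hc : ∀ η, CrossAt M K (fun k => inner ℝ (b k) η)) {q₀ β : ℝ} (hq : 1 ≤ q₀) (hq2 : q₀ ≤ 2)
    (hβ : 0 ≤ β) (i : ℕ) :
    ∫⁻ p in Wd d, ‖Qf v κ b K R i p‖ₑ ^ (q₀ + β) ≤
      ENNReal.ofReal (cst d q₀ β (Fintype.card ι) M R δ ε * ((1 / 2) ^ i) ^ β) := by
  have hom := om_pos (d := d)
  have hN : (0:ℝ) < Fintype.card ι := by exact_mod_cast Fintype.card_pos
  set N : ℝ := (Fintype.card ι : ℝ) with hNd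
  have hx : ∀ p, ‖Qf v κ b K R i p‖ₑ ≤ ENNReal.ofReal (Pf v κ b K R i p) + ENNReal.ofReal (Pf v κ b K R (i + 1) p) := by
    intro p
    rw [Qf_eq]
    refine enorm_sub_le.trans ?_
    rw [Real.enorm_of_nonneg (Pf_nonneg _ _ _ _ _ _ _), Real.enorm_of_nonneg (Pf_nonneg _ _ _ _ _ _ _)]
  have h := interp3 (μ := volume.restrict (Wd d)) (F := fun p => ‖Qf v κ b K R i p‖ₑ)
    (Qf_meas v κ b K R i).enorm
    (L := ENNReal.ofReal (2 * (N * (1 + 4 * R / ε) ^ d) * (1 / 2) ^ i))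
    (A₁ := ENNReal.ofReal (2 * (N * (R ^ d * om d))))
    (A₂ := ENNReal.ofReal (2624 * (M + 1) * ((1 + 2 * R / δ) ^ d * (N * (R ^ d * om d)))))
    ?_ ?_ ?_ hq hq2 hβ
  · refine h.trans (le_of_eq ?_)
    rw [ENNReal.ofReal_rpow_of_pos (by positivity), ENNReal.ofReal_rpow_of_pos (by positivity),
      ENNReal.ofReal_rpow_of_pos (by positivity), ← ENNReal.ofReal_mul (by positivity),
      ← ENNReal.ofReal_mul (by positivity)]
    congr 1
    unfold cst
    rw [Real.mul_rpow (by positivity) (by positivity)]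
    ring
  · filter_upwards [ae_restrict_mem Wd_meas] with p hp
    refine (hx p).trans ?_
    rw [← ENNReal.ofReal_add (Pf_nonneg _ _ _ _ _ _ _) (Pf_nonneg _ _ _ _ _ _ _)]
    apply ENNReal.ofReal_le_ofReal
    have h1 := Pf_le v κ b K i hd hε hR hb hp
    have h2 := Pf_le v κ b K (i + 1) hd hε hR hb hp
    have h3 : N * ((1 + 4 * R / ε) ^ d * (1 / 2) ^ (i + 1)) ≤ N * ((1 + 4 * R / ε) ^ d * (1 / 2) ^ i) := by
      have : ((1:ℝ) / 2) ^ (i + 1) ≤ (1 / 2) ^ i := by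
        rw [pow_succ]
        have : (0:ℝ) < (1 / 2) ^ i := by positivity
        linarith
      gcongr
    calc _ ≤ N * ((1 + 4 * R / ε) ^ d * (1 / 2) ^ i) + N * ((1 + 4 * R / ε) ^ d * (1 / 2) ^ i) :=
          add_le_add h1 (h2.trans h3)
      _ = _ := by ring
  · calc _ ≤ ∫⁻ p in Wd d, (ENNReal.ofReal (Pf v κ b K R i p) + ENNReal.ofReal (Pf v κ b K R (i + 1) p)) :=
          lintegral_mono hx
      _ = (∫⁻ p in Wd d, ENNReal.ofReal (Pf v κ b K R i p)) +
          ∫⁻ p in Wd d, ENNReal.ofReal (Pf v κ b K R (i + 1) p) :=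
          lintegral_add_left (Pf_meas v κ b K R i).ennreal_ofReal _
      _ ≤ ENNReal.ofReal (N * (R ^ d * om d)) + ENNReal.ofReal (N * (R ^ d * om d)) :=
          add_le_add (Pf_int v κ b K i hd hR) (Pf_int v κ b K (i + 1) hd hR)
      _ = _ := by
          rw [← ENNReal.ofReal_add (by positivity) (by positivity)]
          congr 1
          ring
  · calc _ ≤ 2624 * (M + 1) * ∫⁻ w, (∑ t, ENNReal.ofReal (chi R (w - v t))) ^ 2 :=
          L2 v κ b R hc i
      _ ≤ 2624 * (M + 1) * ENNReal.ofReal ((1 + 2 * R / δ) ^ d * (Fintype.card ι * (R ^ d * om d))) := by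
          gcongr
          exact overlap hd v hδ hR hsep
      _ = _ := by
          rw [← hNd, ENNReal.ofReal_mul (p := 2624 * ((M:ℝ) + 1)) (by positivity),
            ENNReal.ofReal_mul (p := 2624) (by norm_num),
            ENNReal.ofReal_add (Nat.cast_nonneg _) zero_le_one, ENNReal.ofReal_natCast]
          simp

/-- The sum over all levels. -/
theorem Pf_pow (hd : 1 ≤ d) {R δ ε : ℝ} (hR : 0 < R) (hδ : 0 < δ) (hε : 0 < ε)
    (hsep : ∀ i j, i ≠ j → δ ≤ ‖v i - v j‖)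
    (hb : ∀ k < K, ∀ k' < K, k ≠ k' → ε ≤ ‖b k - b k'‖)
    (hc : ∀ η, CrossAt M K (fun k => inner ℝ (b k) η)) {q₀ β : ℝ} (hq : 1 ≤ q₀) (hq2 : q₀ ≤ 2)
    (hβ : 0 < β) :
    ∫⁻ p in Wd d, ‖Pf v κ b K R 0 p‖ₑ ^ (q₀ + β) ≤
      ENNReal.ofReal (cst d q₀ β (Fintype.card ι) M R δ ε *
        ((1 - (1 / 2) ^ (β / (q₀ + β)))⁻¹) ^ (q₀ + β)) := by
  have hom := om_pos (d := d)
  have hN : (0:ℝ) < Fintype.card ι := by exact_mod_cast Fintype.card_pos
  set N : ℝ := (Fintype.card ι : ℝ) with hNd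
  set q : ℝ := q₀ + β with hqd
  have hq1 : 1 < q := by rw [hqd]; linarith
  have hq0 : 0 < q := by linarith
  set μ : Measure (ℝ × Vec d) := volume.restrict (Wd d) with hμ
  set X : ℝ := cst d q₀ β N M R δ ε with hX
  have hX0 : 0 < X := by
    rw [hX]
    unfold cst
    positivity
  set r : ℝ := (1 / 2) ^ (β / q) with hr
  have hr0 : 0 < r := by positivity
  have hr1 : r < 1 := Real.rpow_lt_one (by norm_num) (by norm_num) (by positivity)
  -- the norms
  have hQn : ∀ i, eLpNorm (Qf v κ b K R i) (ENNReal.ofReal q) μ ≤ ENNReal.ofReal (X ^ (1 / q) * r ^ i) := by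
    intro i
    rw [eLpNorm_eq_lintegral_rpow_enorm_toReal (by rw [Ne, ENNReal.ofReal_eq_zero, not_le]; exact hq0)
      ENNReal.ofReal_ne_top, ENNReal.toReal_ofReal hq0.le]
    calc _ ≤ (ENNReal.ofReal (X * ((1 / 2) ^ i) ^ β)) ^ (1 / q) := by
          gcongr
          exact Qf_pow v κ b hd hR hδ hε hsep hb hc hq hq2 hβ.le i
      _ = _ := by
          rw [ENNReal.ofReal_rpow_of_pos (by positivity)]
          congr 1
          rw [Real.mul_rpow hX0.le (by positivity)]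
          congr 1
          rw [← Real.rpow_mul (by positivity), ← Real.rpow_natCast, ← Real.rpow_mul (by norm_num),
            hr, ← Real.rpow_natCast, ← Real.rpow_mul (by norm_num)]
          congr 1
          ring
  have hPn : ∀ I, eLpNorm (Pf v κ b K R I) (ENNReal.ofReal q) μ ≤
      ENNReal.ofReal (((N * (1 + 4 * R / ε) ^ d) ^ (q - 1) * (N * (R ^ d * om d))) ^ (1 / q) *
        ((1 / 2) ^ ((q - 1) / q)) ^ I) := by
    intro I
    rw [eLpNorm_eq_lintegral_rpow_enorm_toReal (by rw [Ne, ENNReal.ofReal_eq_zero, not_le]; exact hq0)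
      ENNReal.ofReal_ne_top, ENNReal.toReal_ofReal hq0.le]
    have h1 : ∫⁻ p, ‖Pf v κ b K R I p‖ₑ ^ q ∂μ ≤
        ENNReal.ofReal ((N * (1 + 4 * R / ε) ^ d * (1 / 2) ^ I) ^ (q - 1) * (N * (R ^ d * om d))) := by
      calc _ ≤ ∫⁻ p, ENNReal.ofReal ((N * (1 + 4 * R / ε) ^ d * (1 / 2) ^ I) ^ (q - 1)) *
            ENNReal.ofReal (Pf v κ b K R I p) ∂μ := by
            apply lintegral_mono_ae
            filter_upwards [ae_restrict_mem Wd_meas] with p hp
            have h0 := Pf_nonneg v κ b K R I p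
            rw [Real.enorm_of_nonneg h0, ENNReal.ofReal_rpow_of_nonneg h0 hq0.le,
              ← ENNReal.ofReal_mul (by positivity)]
            apply ENNReal.ofReal_le_ofReal
            have e : Pf v κ b K R I p ^ q = Pf v κ b K R I p ^ (q - 1) * Pf v κ b K R I p := by
              rcases h0.eq_or_lt with h | h
              · rw [← h, Real.zero_rpow hq0.ne']; ring
              · rw [← Real.rpow_add_one h.ne']; congr 1; ring
            rw [e]
            have h2 := Pf_le v κ b K I hd hε hR hb hp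
            rw [← hNd, ← mul_assoc] at h2
            gcongr
        _ = ENNReal.ofReal ((N * (1 + 4 * R / ε) ^ d * (1 / 2) ^ I) ^ (q - 1)) *
            ∫⁻ p, ENNReal.ofReal (Pf v κ b K R I p) ∂μ := lintegral_const_mul' _ _ ENNReal.ofReal_ne_top
        _ ≤ ENNReal.ofReal ((N * (1 + 4 * R / ε) ^ d * (1 / 2) ^ I) ^ (q - 1)) *
            ENNReal.ofReal (N * (R ^ d * om d)) := by
            gcongr
            exact Pf_int v κ b K I hd hR
        _ = _ := (ENNReal.ofReal_mul (by positivity)).symm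
    calc _ ≤ (ENNReal.ofReal ((N * (1 + 4 * R / ε) ^ d * (1 / 2) ^ I) ^ (q - 1) * (N * (R ^ d * om d)))) ^ (1 / q) := by
          gcongr
      _ = _ := by
          rw [ENNReal.ofReal_rpow_of_pos (by positivity)]
          congr 1
          have e1 : (N * (1 + 4 * R / ε) ^ d * (1 / 2) ^ I) ^ (q - 1) * (N * (R ^ d * om d)) =
              ((N * (1 + 4 * R / ε) ^ d) ^ (q - 1) * (N * (R ^ d * om d))) * ((1 / 2) ^ I) ^ (q - 1) := by
            rw [Real.mul_rpow (by positivity) (by positivity)]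
            ring
          rw [e1, Real.mul_rpow (by positivity) (by positivity)]
          congr 1
          rw [← Real.rpow_mul (by positivity), ← Real.rpow_natCast, ← Real.rpow_mul (by norm_num),
            ← Real.rpow_natCast, ← Real.rpow_mul (by norm_num)]
          congr 1
          ring
  -- the finite sums
  have hfin : ∀ I : ℕ, eLpNorm (Pf v κ b K R 0) (ENNReal.ofReal q) μ ≤
      ENNReal.ofReal (X ^ (1 / q) * (1 - r)⁻¹ +
        ((N * (1 + 4 * R / ε) ^ d) ^ (q - 1) * (N * (R ^ d * om d))) ^ (1 / q) *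
        ((1 / 2) ^ ((q - 1) / q)) ^ I) := by
    intro I
    have e : Pf v κ b K R 0 = (∑ i ∈ Finset.range I, Qf v κ b K R i) + Pf v κ b K R I := by
      funext p
      rw [Pi.add_apply, Finset.sum_apply]
      exact Pf_tel v κ b K R I p
    have hone : (1:ℝ≥0∞) ≤ ENNReal.ofReal q := by
      rw [← ENNReal.ofReal_one]
      exact ENNReal.ofReal_le_ofReal hq1.le
    rw [e]
    calc _ ≤ eLpNorm (∑ i ∈ Finset.range I, Qf v κ b K R i) (ENNReal.ofReal q) μ +
          eLpNorm (Pf v κ b K R I) (ENNReal.ofReal q) μ :=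
          eLpNorm_add_le (Finset.aestronglyMeasurable_sum _ fun i _ =>
            (Qf_meas v κ b K R i).aestronglyMeasurable) (Pf_meas v κ b K R I).aestronglyMeasurable hone
      _ ≤ (∑ i ∈ Finset.range I, eLpNorm (Qf v κ b K R i) (ENNReal.ofReal q) μ) +
          eLpNorm (Pf v κ b K R I) (ENNReal.ofReal q) μ := by
          gcongr
          exact eLpNorm_sum_le (fun i _ => (Qf_meas v κ b K R i).aestronglyMeasurable) hone
      _ ≤ (∑ i ∈ Finset.range I, ENNReal.ofReal (X ^ (1 / q) * r ^ i)) +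
          ENNReal.ofReal (((N * (1 + 4 * R / ε) ^ d) ^ (q - 1) * (N * (R ^ d * om d))) ^ (1 / q) *
        ((1 / 2) ^ ((q - 1) / q)) ^ I) := by
          gcongr with i _
          · exact hQn i
          · exact hPn I
      _ ≤ ENNReal.ofReal (X ^ (1 / q) * (1 - r)⁻¹) +
          ENNReal.ofReal (((N * (1 + 4 * R / ε) ^ d) ^ (q - 1) * (N * (R ^ d * om d))) ^ (1 / q) *
        ((1 / 2) ^ ((q - 1) / q)) ^ I) := by
          gcongr
          rw [← ENNReal.ofReal_sum_of_nonneg (fun i _ => by positivity), ← Finset.mul_sum]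
          apply ENNReal.ofReal_le_ofReal
          gcongr
          rw [← tsum_geometric_of_lt_one hr0.le hr1]
          exact (summable_geometric_of_lt_one hr0.le hr1).sum_le_tsum _ (fun i _ => by positivity)
      _ = _ := by
          have : 0 < (1 - r)⁻¹ := inv_pos.2 (by linarith)
          rw [← ENNReal.ofReal_add (by positivity) (by positivity)]
  have hlim : eLpNorm (Pf v κ b K R 0) (ENNReal.ofReal q) μ ≤ ENNReal.ofReal (X ^ (1 / q) * (1 - r)⁻¹) := by
    have h1 : Filter.Tendsto (fun I : ℕ => ENNReal.ofReal (X ^ (1 / q) * (1 - r)⁻¹ +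
        ((N * (1 + 4 * R / ε) ^ d) ^ (q - 1) * (N * (R ^ d * om d))) ^ (1 / q) *
        ((1 / 2) ^ ((q - 1) / q)) ^ I)) Filter.atTop (nhds (ENNReal.ofReal (X ^ (1 / q) * (1 - r)⁻¹))) := by
      apply ENNReal.tendsto_ofReal
      have h2 : Filter.Tendsto (fun I : ℕ => (((1:ℝ) / 2) ^ ((q - 1) / q)) ^ I) Filter.atTop (nhds 0) := by
        apply _root_.tendsto_pow_atTop_nhds_zero_of_lt_one (by positivity)
        exact Real.rpow_lt_one (by norm_num) (by norm_num) (div_pos (by linarith) hq0)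
      have h3 := (h2.const_mul (((N * (1 + 4 * R / ε) ^ d) ^ (q - 1) * (N * (R ^ d * om d))) ^ (1 / q))).const_add
        (X ^ (1 / q) * (1 - r)⁻¹)
      rw [mul_zero, add_zero] at h3
      exact h3
    exact ge_of_tendsto h1 (Filter.Eventually.of_forall hfin)
  rw [eLpNorm_eq_lintegral_rpow_enorm_toReal (by rw [Ne, ENNReal.ofReal_eq_zero, not_le]; exact hq0)
      ENNReal.ofReal_ne_top, ENNReal.toReal_ofReal hq0.le] at hlim
  have h4 := ENNReal.rpow_le_rpow hlim hq0.le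
  rw [← ENNReal.rpow_mul] at h4
  have e5 : 1 / q * q = 1 := by field_simp
  have hr2 : 0 < (1 - r)⁻¹ := inv_pos.2 (by linarith)
  rw [e5, ENNReal.rpow_one, ENNReal.ofReal_rpow_of_pos (by positivity),
    Real.mul_rpow (by positivity) (by positivity), ← Real.rpow_mul hX0.le, e5, Real.rpow_one] at h4
  exact h4

end region

end Pool.Agent.U527.Crv
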