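import Pool.Agent.U527.Crv.Geo

set_option autoImplicit false

/-! The sum over the heights. -/

open MeasureTheory Set ENNReal Real Metric

namespace Pool.Agent.U527.Crv

open Pool.Agent.H810R3.Tub

variable {d : ℕ}

/-- The constant of the theorem, for one region. -/
noncomputable def E1 (d : ℕ) (q₀ β k₀ T : ℝ) : ℝ :=
  2 ^ d * 4 * ((2 * (1 + 4 * k₀) ^ d) ^ β * 2 ^ (2 - q₀) * 2624 ^ (q₀ - 1) *
    ((T + 2 * k₀) ^ d) ^ (q₀ - 1) * (k₀ ^ d * om d))

theorem E1_pos {q₀ β k₀ T : ℝ} (hk : 0 < k₀) (hT : 0 < T) : 0 < E1 d q₀ β k₀ T := by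
  have := om_pos (d := d)
  unfold E1
  positivity

theorem cst_le (hd : 1 ≤ d) {β k₀ T N M δ ρ : ℝ} (hβ : 0 < β) (hk : 0 < k₀)
    (hN : 0 < N) (hM : 0 ≤ M) (hδ : 0 < δ) (hρ : 0 < ρ) (hρT : ρ ≤ T) {q₀ : ℝ}
    (hq₀ : q₀ = 1 + 1 / d + β) :
    (2 * ρ) ^ d * (4 * ρ) * cst d q₀ β N M (k₀ * δ / ρ) δ (δ / ρ) ≤
      E1 d q₀ β k₀ T * ((M + 1) ^ (q₀ - 1) * (N ^ (1 + β) * δ ^ d * ρ ^ (-(d * β)))) := by
  have hom := om_pos (d := d)
  have hd0 : (0:ℝ) < d := by exact_mod_cast hd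
  have hT : 0 < T := by linarith
  have hM1 : 0 < M + 1 := by linarith
  have hq1 : 0 < q₀ - 1 := by
    rw [hq₀]
    have : (0:ℝ) < 1 / d := by positivity
    linarith
  have e1 : 1 + 4 * (k₀ * δ / ρ) / (δ / ρ) = 1 + 4 * k₀ := by
    field_simp
  have e2 : 1 + 2 * (k₀ * δ / ρ) / δ = (ρ + 2 * k₀) / ρ := by
    field_simp
  set Y : ℝ := N * ((k₀ * δ / ρ) ^ d * om d) with hY
  have hY0 : 0 < Y := by positivity
  set B : ℝ := ((ρ + 2 * k₀) / ρ) ^ d with hB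
  have hB0 : 0 < B := by positivity
  have h1 : cst d q₀ β N M (k₀ * δ / ρ) δ (δ / ρ) =
      (2 * (1 + 4 * k₀) ^ d) ^ β * 2 ^ (2 - q₀) * 2624 ^ (q₀ - 1) * (N ^ β * (M + 1) ^ (q₀ - 1) *
        (B ^ (q₀ - 1) * Y)) := by
    unfold cst
    rw [e1, e2, ← hY, ← hB]
    have a1 : (2 * (N * (1 + 4 * k₀) ^ d)) ^ β = (2 * (1 + 4 * k₀) ^ d) ^ β * N ^ β := by
      rw [← Real.mul_rpow (by positivity) hN.le]
      congr 1
      ring
    have a2 : (2 * Y) ^ (2 - q₀) = 2 ^ (2 - q₀) * Y ^ (2 - q₀) := Real.mul_rpow (by norm_num) hY0.le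
    have a3 : (2624 * (M + 1) * (B * Y)) ^ (q₀ - 1) =
        2624 ^ (q₀ - 1) * (M + 1) ^ (q₀ - 1) * (B ^ (q₀ - 1) * Y ^ (q₀ - 1)) := by
      rw [Real.mul_rpow (by positivity) (by positivity), Real.mul_rpow (by norm_num) hM1.le,
        Real.mul_rpow hB0.le hY0.le]
    have a4 : Y ^ (2 - q₀) * Y ^ (q₀ - 1) = Y := by
      rw [← Real.rpow_add hY0]
      have : 2 - q₀ + (q₀ - 1) = 1 := by ring
      rw [this, Real.rpow_one]
    rw [a1, a2, a3]
    calc _ = (2 * (1 + 4 * k₀) ^ d) ^ β * 2 ^ (2 - q₀) * 2624 ^ (q₀ - 1) * (N ^ β * (M + 1) ^ (q₀ - 1) *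
        (B ^ (q₀ - 1) * (Y ^ (2 - q₀) * Y ^ (q₀ - 1)))) := by ring
      _ = _ := by rw [a4]
  have h2 : B ^ (q₀ - 1) ≤ ((T + 2 * k₀) ^ d) ^ (q₀ - 1) * (ρ * ρ ^ (d * β))⁻¹ := by
    have b1 : B ≤ (T + 2 * k₀) ^ d / ρ ^ d := by
      rw [hB, div_pow]
      gcongr
    calc B ^ (q₀ - 1) ≤ ((T + 2 * k₀) ^ d / ρ ^ d) ^ (q₀ - 1) := Real.rpow_le_rpow hB0.le b1 hq1.le
      _ = ((T + 2 * k₀) ^ d) ^ (q₀ - 1) / (ρ ^ d) ^ (q₀ - 1) := Real.div_rpow (by positivity) (by positivity) _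
      _ = _ := by
          rw [div_eq_mul_inv]
          congr 2
          rw [← Real.rpow_natCast, ← Real.rpow_mul hρ.le]
          have : (d:ℝ) * (q₀ - 1) = 1 + d * β := by
            rw [hq₀]
            field_simp
            ring
          rw [this, Real.rpow_add hρ, Real.rpow_one]
  have h3 : ρ ^ (-(d * β)) = (ρ ^ (d * β))⁻¹ := Real.rpow_neg hρ.le _
  have hρβ : 0 < ρ ^ (d * β) := Real.rpow_pos_of_pos hρ _
  have h4 : N ^ (1 + β) = N * N ^ β := by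
    rw [Real.rpow_add hN, Real.rpow_one]
  rw [h1, h3, h4]
  set A : ℝ := (2 * (1 + 4 * k₀) ^ d) ^ β * 2 ^ (2 - q₀) * 2624 ^ (q₀ - 1) with hA
  have hA0 : 0 < A := by positivity
  calc _ ≤ (2 * ρ) ^ d * (4 * ρ) * (A * (N ^ β * (M + 1) ^ (q₀ - 1) *
        ((((T + 2 * k₀) ^ d) ^ (q₀ - 1) * (ρ * ρ ^ (d * β))⁻¹) * Y))) := by gcongr
    _ = _ := by
        rw [hY]
        unfold E1
        rw [← hA, div_pow, mul_pow, mul_pow]
        field_simp

/-- The trivial bound near height zero. -/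
theorem small {ι : Type*} [Fintype ι] (hd : 1 ≤ d) (v β : ι → Vec d) {δ ρ q : ℝ} (hδ : 0 < δ)
    (hρ : 0 < ρ) (hq : 1 ≤ q) :
    ∫⁻ z in Icc (-ρ) ρ, ∫⁻ x, (Uf δ v β x z) ^ q ≤
      ENNReal.ofReal (2 * ρ * ((Fintype.card ι : ℝ) ^ (q - 1) * (Fintype.card ι * ((3 * δ) ^ d * om d)))) := by
  have hom := om_pos (d := d)
  set N : ℝ := (Fintype.card ι : ℝ) with hN
  have hN0 : 0 ≤ N := Nat.cast_nonneg _
  have hm : ∀ (z : ℝ) t, Measurable fun x : Vec d => ENNReal.ofReal (chi (3 * δ) (x - β t - z • v t)) := by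
    intro z t
    exact ((chi_meas _).comp (by fun_prop)).ennreal_ofReal
  have h1 : ∀ z x, Uf δ v β x z ≤ ENNReal.ofReal N := by
    intro z x
    unfold Uf
    calc _ ≤ ∑ _t : ι, (1 : ℝ≥0∞) := by
          apply Finset.sum_le_sum
          intro t _
          rw [← ENNReal.ofReal_one]
          exact ENNReal.ofReal_le_ofReal (chi_le _ _)
      _ = ENNReal.ofReal N := by simp [hN]
  have h2 : ∀ z, ∫⁻ x, Uf δ v β x z = ENNReal.ofReal (N * ((3 * δ) ^ d * om d)) := by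
    intro z
    unfold Uf
    rw [lintegral_finsetSum _ (fun t _ => hm z t)]
    have h3 : ∀ t, ∫⁻ x : Vec d, ENNReal.ofReal (chi (3 * δ) (x - β t - z • v t)) =
        ENNReal.ofReal ((3 * δ) ^ d * om d) := by
      intro t
      have h4 := lintegral_sub_right_eq_self (μ := (volume : Measure (Vec d)))
        (fun w => ENNReal.ofReal (chi (3 * δ) w)) (β t + z • v t)
      have e : ∀ y : Vec d, y - β t - z • v t = y - (β t + z • v t) := fun y => by abel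
      simp only [e]
      rw [h4]
      have h5 : ∀ w : Vec d, ENNReal.ofReal (chi (3 * δ) w) = (ball (0:Vec d) (3 * δ)).indicator (fun _ => 1) w := by
        intro w
        unfold chi
        by_cases hw : w ∈ ball (0 : Vec d) (3 * δ)
        · rw [indicator_of_mem hw, indicator_of_mem hw, ENNReal.ofReal_one]
        · rw [indicator_of_notMem hw, indicator_of_notMem hw, ENNReal.ofReal_zero]
      simp only [h5]
      rw [lintegral_indicator measurableSet_ball, setLIntegral_const, one_mul]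
      exact vol_ball hd (by positivity)
    simp only [h3]
    rw [Finset.sum_const, nsmul_eq_mul, Finset.card_univ, ← ENNReal.ofReal_natCast,
      ← ENNReal.ofReal_mul (Nat.cast_nonneg _)]
  have h3 : ∀ z, ∫⁻ x, (Uf δ v β x z) ^ q ≤ ENNReal.ofReal (N ^ (q - 1) * (N * ((3 * δ) ^ d * om d))) := by
    intro z
    calc _ ≤ ∫⁻ x, ENNReal.ofReal (N ^ (q - 1)) * Uf δ v β x z := by
          apply lintegral_mono
          intro x
          beta_reduce
          have e : q = (q - 1) + 1 := by ring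
          conv_lhs => rw [e, ENNReal.rpow_add_of_nonneg _ _ (by linarith) (by norm_num), ENNReal.rpow_one]
          rw [← ENNReal.ofReal_rpow_of_nonneg hN0 (by linarith)]
          gcongr
          exact h1 z x
      _ = _ := by
          rw [lintegral_const_mul' _ _ ENNReal.ofReal_ne_top, h2, ← ENNReal.ofReal_mul (by positivity)]
  calc _ ≤ ∫⁻ _ in Icc (-ρ) ρ, ENNReal.ofReal (N ^ (q - 1) * (N * ((3 * δ) ^ d * om d))) :=
        lintegral_mono h3
    _ = _ := by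
        rw [setLIntegral_const, Real.volume_Icc, ← ENNReal.ofReal_mul (by positivity)]
        congr 1
        ring

/-- Reflection of the heights. -/
theorem reflect {ι : Type*} [Fintype ι] (v β : ι → Vec d) (δ q : ℝ) (s : Set ℝ) :
    ∫⁻ z in -s, ∫⁻ x, (Uf δ v β x z) ^ q = ∫⁻ z in s, ∫⁻ x, (Uf δ (fun t => -v t) β x z) ^ q := by
  have h1 := (Measure.measurePreserving_neg (volume : Measure ℝ)).setLIntegral_comp_preimage_emb
    (Homeomorph.neg ℝ).measurableEmbedding (fun z => ∫⁻ x, (Uf δ v β x z) ^ q) (-s)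
  rw [← h1]
  have e : (Neg.neg ⁻¹' (-s) : Set ℝ) = s := by
    ext x
    simp
  rw [e]
  apply lintegral_congr
  intro z
  apply lintegral_congr
  intro x
  unfold Uf
  congr 1
  apply Finset.sum_congr rfl
  intro t _
  rw [neg_smul, smul_neg]

theorem lint_biUnion_le (s : Finset ℕ) (A : ℕ → Set ℝ) (F : ℝ → ℝ≥0∞) :
    ∫⁻ z in ⋃ l ∈ s, A l, F z ≤ ∑ l ∈ s, ∫⁻ z in A l, F z := by
  classical
  induction s using Finset.induction_on with
  | empty => simp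
  | insert a s ha ih =>
    rw [Finset.set_biUnion_insert, Finset.sum_insert ha]
    refine (lintegral_union_le _ _ _).trans ?_
    gcongr

/-- The sum over all heights, exponents at most `2`. -/
theorem total (hd : 1 ≤ d) {ι : Type*} [Fintype ι] [Nonempty ι] {M : ℕ} {γ : ℝ → Vec d}
    (hγ : ContinuousOn γ (Icc 0 1)) (ho : OrderLE M γ) {δ k₀ T q q₀ β : ℝ} (hδ : 0 < δ)
    (hk : 4 ≤ k₀) (hT : 0 < T) (hβ : 0 < β) (hq₀ : q₀ = 1 + 1 / d + β) (hq : q = q₀ + β) (hq2 : q₀ ≤ 2)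
    (v β' : ι → Vec d) (τ : ι → ℝ) (hτ : ∀ t, τ t ∈ Icc (0:ℝ) 1)
    (hsep : ∀ i j, i ≠ j → δ ≤ ‖v i - v j‖) (hb : ∀ t, ‖β' t - γ (τ t)‖ ≤ (k₀ - 4) * δ) :
    ∫⁻ z in Icc (-T) T, ∫⁻ x, (Uf δ v β' x z) ^ q ≤
      ENNReal.ofReal ((2 * (3 ^ d * om d) + 2 * (E1 d q₀ β k₀ T *
        ((1 - (1 / 2) ^ (β / q))⁻¹) ^ q * (1 - (1 / 2) ^ (d * β))⁻¹)) *
        ((M + 1 : ℝ) ^ (q₀ - 1) * (δ ^ d * (Fintype.card ι : ℝ) ^ (q - 1 / d)))) := by
  classical
  have hom := om_pos (d := d)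
  have hd0 : (0:ℝ) < d := by exact_mod_cast hd
  have hd1 : (0:ℝ) < 1 / d := by positivity
  have hN1 : (1:ℝ) ≤ Fintype.card ι := by exact_mod_cast Fintype.card_pos
  set N : ℝ := (Fintype.card ι : ℝ) with hNd
  have hN : 0 < N := by linarith
  have hk0 : 0 < k₀ := by linarith
  have hq1 : 1 < q := by rw [hq, hq₀]; linarith
  have hq0 : 0 < q := by linarith
  have hq01 : 1 ≤ q₀ := by rw [hq₀]; linarith
  obtain ⟨K, a, κ, ha, hcr, hκ⟩ := samples hγ ho τ hτ hδ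
  have hb' : ∀ t, κ t < K ∧ ‖β' t - a (κ t)‖ ≤ (k₀ - 3) * δ := by
    intro t
    refine ⟨(hκ t).1, ?_⟩
    calc ‖β' t - a (κ t)‖ = ‖(β' t - γ (τ t)) + (γ (τ t) - a (κ t))‖ := by congr 1; abel
      _ ≤ ‖β' t - γ (τ t)‖ + ‖γ (τ t) - a (κ t)‖ := norm_add_le _ _
      _ ≤ (k₀ - 4) * δ + δ := add_le_add (hb t) (hκ t).2
      _ = _ := by ring
  set G : ℝ := ((1 - (1 / 2) ^ (β / q))⁻¹) ^ q with hG
  have hG0 : 0 < G := by
    have : (((1:ℝ) / 2) ^ (β / q)) < 1 := Real.rpow_lt_one (by norm_num) (by norm_num) (by positivity)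
    have : 0 < (1 - ((1:ℝ) / 2) ^ (β / q))⁻¹ := inv_pos.2 (by linarith)
    positivity
  have hE0 : 0 < E1 d q₀ β k₀ T := E1_pos hk0 hT
  set Z : ℝ := (M + 1 : ℝ) ^ (q₀ - 1) with hZ
  have hM0 : (0:ℝ) ≤ M := Nat.cast_nonneg M
  have hZ1 : 1 ≤ Z := by
    rw [hZ]
    exact Real.one_le_rpow (by linarith) (by linarith)
  -- one region, for both signs
  have hreg : ∀ w : ι → Vec d, (∀ i j, i ≠ j → δ ≤ ‖w i - w j‖) → ∀ ρ, 0 < ρ → ρ ≤ T →
      ∫⁻ z in Icc ρ (2 * ρ), ∫⁻ x, (Uf δ w β' x z) ^ q ≤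
        ENNReal.ofReal (E1 d q₀ β k₀ T * G * (Z * (N ^ (1 + β) * δ ^ d * ρ ^ (-(d * β))))) := by
    intro w hw ρ hρ hρT
    have h1 := region w β' κ a hδ hρ hq0.le hb'
    have h2 := Pf_pow w κ (fun k => ρ⁻¹ • a k) (M := M) (K := K) hd (R := k₀ * δ / ρ) (δ := δ)
      (ε := δ / ρ) (by positivity) hδ (by positivity) hw (by
        intro k hk k' hk' hkk
        rw [← smul_sub, norm_smul, norm_inv, Real.norm_eq_abs, abs_of_pos hρ, div_eq_inv_mul]
        have := ha k hk k' hk' hkk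
        gcongr) (fun η => cross_smul hcr ρ⁻¹ η) hq01 hq2 hβ
    rw [← hq, ← hG, ← hNd] at h2
    refine h1.trans ?_
    calc _ ≤ ENNReal.ofReal ((2 * ρ) ^ d * (4 * ρ)) *
          ENNReal.ofReal (cst d q₀ β N M (k₀ * δ / ρ) δ (δ / ρ) * G) := by gcongr
      _ = ENNReal.ofReal ((2 * ρ) ^ d * (4 * ρ) * cst d q₀ β N M (k₀ * δ / ρ) δ (δ / ρ) * G) := by
          rw [← ENNReal.ofReal_mul (by positivity)]
          congr 1
          ring
      _ ≤ _ := by
          apply ENNReal.ofReal_le_ofReal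
          have h3 := cst_le hd hβ hk0 hN hM0 hδ hρ hρT hq₀
          calc _ ≤ E1 d q₀ β k₀ T * ((M + 1) ^ (q₀ - 1) * (N ^ (1 + β) * δ ^ d * ρ ^ (-(d * β)))) * G := by
                gcongr
            _ = _ := by rw [← hZ]; ring
  -- the dyadic heights
  set ρ₀ : ℝ := N ^ (-(1 / d : ℝ)) with hρ₀
  have hρ₀0 : 0 < ρ₀ := Real.rpow_pos_of_pos hN _
  have hρpow : ∀ l : ℕ, (2 ^ l * ρ₀) ^ (-(d * β)) = ((1 / 2) ^ (d * β)) ^ l * N ^ β := by
    intro l
    rw [Real.mul_rpow (by positivity) hρ₀0.le]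
    congr 1
    · rw [← Real.rpow_natCast, ← Real.rpow_mul (by norm_num), ← Real.rpow_natCast,
        ← Real.rpow_mul (by norm_num), one_div, Real.inv_rpow (by norm_num), ← Real.rpow_neg (by norm_num)]
      congr 1
      ring
    · rw [hρ₀, ← Real.rpow_mul hN.le]
      congr 1
      field_simp
  obtain ⟨L, hL1, hL2⟩ : ∃ L : ℕ, T ≤ 2 ^ L * ρ₀ ∧ ∀ l < L, 2 ^ l * ρ₀ < T := by
    have hex : ∃ L : ℕ, T ≤ 2 ^ L * ρ₀ := by
      obtain ⟨L, hL⟩ := pow_unbounded_of_one_lt (T / ρ₀) (by norm_num : (1:ℝ) < 2)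
      refine ⟨L, ?_⟩
      rw [div_lt_iff₀ hρ₀0] at hL
      exact hL.le
    refine ⟨Nat.find hex, Nat.find_spec hex, ?_⟩
    intro l hl
    exact not_le.1 (Nat.find_min hex hl)
  have hcover : Icc (-T) T ⊆ Icc (-ρ₀) ρ₀ ∪ ((⋃ l ∈ Finset.range L, Icc (2 ^ l * ρ₀) (2 * (2 ^ l * ρ₀))) ∪
      ⋃ l ∈ Finset.range L, -Icc (2 ^ l * ρ₀) (2 * (2 ^ l * ρ₀))) := by
    intro z hz
    by_cases h1 : |z| ≤ ρ₀
    · left
      exact abs_le.1 h1
    · right
      push Not at h1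
      have hzT : |z| ≤ T := abs_le.2 hz
      obtain ⟨l, hl1, hl2, hl3⟩ : ∃ l < L, 2 ^ l * ρ₀ ≤ |z| ∧ |z| ≤ 2 * (2 ^ l * ρ₀) := by
        have hex : ∃ m : ℕ, |z| ≤ 2 ^ m * ρ₀ := ⟨L, hzT.trans hL1⟩
        set m := Nat.find hex with hm
        have hm1 : |z| ≤ 2 ^ m * ρ₀ := Nat.find_spec hex
        have hm0 : m ≠ 0 := by
          intro h0
          rw [h0, pow_zero, one_mul] at hm1
          linarith
        obtain ⟨l, hl⟩ := Nat.exists_eq_succ_of_ne_zero hm0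
        have hmL : m ≤ L := Nat.find_min' hex (hzT.trans hL1)
        refine ⟨l, by omega, ?_, ?_⟩
        · have h2 : ¬ |z| ≤ 2 ^ l * ρ₀ := Nat.find_min hex (by omega)
          linarith
        · rw [hl, Nat.succ_eq_add_one, pow_succ] at hm1
          linarith
      rcases le_total 0 z with h0 | h0
      · left
        rw [abs_of_nonneg h0] at hl2 hl3
        exact mem_iUnion₂.2 ⟨l, Finset.mem_range.2 hl1, hl2, hl3⟩
      · right
        rw [abs_of_nonpos h0] at hl2 hl3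
        exact mem_iUnion₂.2 ⟨l, Finset.mem_range.2 hl1, by
          rw [Set.mem_neg]
          exact ⟨hl2, hl3⟩⟩
  set F : ℝ → ℝ≥0∞ := fun z => ∫⁻ x, (Uf δ v β' x z) ^ q with hF
  have hsum : ∀ w : ι → Vec d, (∀ i j, i ≠ j → δ ≤ ‖w i - w j‖) →
      ∑ l ∈ Finset.range L, ∫⁻ z in Icc (2 ^ l * ρ₀) (2 * (2 ^ l * ρ₀)), ∫⁻ x, (Uf δ w β' x z) ^ q ≤
        ENNReal.ofReal (E1 d q₀ β k₀ T * G * (1 - (1 / 2) ^ (d * β))⁻¹ * (Z * (δ ^ d * N ^ (q - 1 / d)))) := by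
    intro w hw
    have hr : (((1:ℝ) / 2) ^ (d * β)) < 1 := Real.rpow_lt_one (by norm_num) (by norm_num) (by positivity)
    have hr0 : (0:ℝ) < (1 / 2) ^ (d * β) := by positivity
    calc _ ≤ ∑ l ∈ Finset.range L, ENNReal.ofReal (E1 d q₀ β k₀ T * G * (Z * (N ^ (1 + β) * δ ^ d *
          (((1 / 2) ^ (d * β)) ^ l * N ^ β)))) := by
          apply Finset.sum_le_sum
          intro l hl
          have := hreg w hw (2 ^ l * ρ₀) (by positivity) (hL2 l (Finset.mem_range.1 hl)).le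
          rwa [hρpow] at this
      _ = ENNReal.ofReal (E1 d q₀ β k₀ T * G * (Z * (N ^ (1 + β) * δ ^ d * N ^ β)) *
          ∑ l ∈ Finset.range L, (((1:ℝ) / 2) ^ (d * β)) ^ l) := by
          rw [← ENNReal.ofReal_sum_of_nonneg (fun l _ => by positivity), Finset.mul_sum]
          congr 1
          apply Finset.sum_congr rfl
          intro l _
          ring
      _ ≤ ENNReal.ofReal (E1 d q₀ β k₀ T * G * (Z * (N ^ (1 + β) * δ ^ d * N ^ β)) *
          (1 - (1 / 2) ^ (d * β))⁻¹) := by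
          apply ENNReal.ofReal_le_ofReal
          gcongr
          rw [← tsum_geometric_of_lt_one hr0.le hr]
          exact (summable_geometric_of_lt_one hr0.le hr).sum_le_tsum _ (fun i _ => by positivity)
      _ = _ := by
          congr 1
          have e1 : N ^ (q - 1 / d) = N ^ (1 + β) * N ^ β := by
            rw [← Real.rpow_add hN]
            congr 1
            rw [hq, hq₀]
            ring
          rw [e1]
          ring
  have hsmall : ∫⁻ z in Icc (-ρ₀) ρ₀, F z ≤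
      ENNReal.ofReal (2 * (3 ^ d * om d) * (Z * (δ ^ d * N ^ (q - 1 / d)))) := by
    refine (small hd v β' hδ hρ₀0 hq1.le).trans ?_
    apply ENNReal.ofReal_le_ofReal
    rw [← hNd, mul_pow]
    have e1 : ρ₀ * (N ^ (q - 1) * N) = N ^ (q - 1 / d) := by
      rw [hρ₀, ← Real.rpow_add_one hN.ne', ← Real.rpow_add hN]
      congr 1
      ring
    calc _ = 2 * (3 ^ d * om d) * (1 * (δ ^ d * (ρ₀ * (N ^ (q - 1) * N)))) := by ring
      _ ≤ 2 * (3 ^ d * om d) * (Z * (δ ^ d * (ρ₀ * (N ^ (q - 1) * N)))) := by gcongr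
      _ = _ := by rw [e1]
  have hneg : ∀ i j, i ≠ j → δ ≤ ‖(fun t => -v t) i - (fun t => -v t) j‖ := by
    intro i j hij
    simp only
    rw [← neg_sub', norm_neg]
    exact hsep i j hij
  calc ∫⁻ z in Icc (-T) T, F z
      ≤ ∫⁻ z in Icc (-ρ₀) ρ₀ ∪ ((⋃ l ∈ Finset.range L, Icc (2 ^ l * ρ₀) (2 * (2 ^ l * ρ₀))) ∪
      ⋃ l ∈ Finset.range L, -Icc (2 ^ l * ρ₀) (2 * (2 ^ l * ρ₀))), F z := lintegral_mono_set hcover
    _ ≤ (∫⁻ z in Icc (-ρ₀) ρ₀, F z) + ((∑ l ∈ Finset.range L, ∫⁻ z in Icc (2 ^ l * ρ₀) (2 * (2 ^ l * ρ₀)), F z) +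
        ∑ l ∈ Finset.range L, ∫⁻ z in -Icc (2 ^ l * ρ₀) (2 * (2 ^ l * ρ₀)), F z) := by
        refine (lintegral_union_le _ _ _).trans ?_
        gcongr
        refine (lintegral_union_le _ _ _).trans ?_
        gcongr
        · exact lint_biUnion_le _ _ _
        · exact lint_biUnion_le _ _ _
    _ ≤ ENNReal.ofReal (2 * (3 ^ d * om d) * (Z * (δ ^ d * N ^ (q - 1 / d)))) +
        (ENNReal.ofReal (E1 d q₀ β k₀ T * G * (1 - (1 / 2) ^ (d * β))⁻¹ * (Z * (δ ^ d * N ^ (q - 1 / d)))) +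
        ENNReal.ofReal (E1 d q₀ β k₀ T * G * (1 - (1 / 2) ^ (d * β))⁻¹ * (Z * (δ ^ d * N ^ (q - 1 / d))))) := by
        gcongr
        · exact hsum v hsep
        · have h5 := hsum _ hneg
          refine le_trans (le_of_eq ?_) h5
          apply Finset.sum_congr rfl
          intro l _
          exact reflect v β' δ q _
    _ = _ := by
        have hr : (((1:ℝ) / 2) ^ (d * β)) < 1 := Real.rpow_lt_one (by norm_num) (by norm_num) (by positivity)
        have hr2 : 0 < (1 - ((1:ℝ) / 2) ^ (d * β))⁻¹ := inv_pos.2 (by linarith)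
        rw [← ENNReal.ofReal_add (by positivity) (by positivity),
          ← ENNReal.ofReal_add (by positivity) (by positivity)]
        congr 1
        ring

end Pool.Agent.U527.Crv
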